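import Mathlib

set_option autoImplicit false

/-! Doeblin's condition: convergence to the stationary distribution and its uniqueness. -/

namespace Pool.Agent.Q208.Doeblin

open Finset Filter Topology

set_option linter.unusedSectionVars false

variable {S : Type} [Fintype S] [DecidableEq S]

/-- the l¹ norm of a row vector -/
noncomputable def nrm (v : S → ℝ) : ℝ := ∑ x, |v x|

lemma nrm_nonneg (v : S → ℝ) : 0 ≤ nrm v := Finset.sum_nonneg fun _ _ => abs_nonneg _

lemma sum_vecMul (Q : Matrix S S ℝ) (h1 : ∀ x, ∑ y, Q x y = 1) (v : S → ℝ) :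
    ∑ y, (Matrix.vecMul v Q) y = ∑ x, v x := by
  unfold Matrix.vecMul dotProduct
  rw [Finset.sum_comm]
  refine Finset.sum_congr rfl fun x _ => ?_
  rw [← Finset.mul_sum, h1, mul_one]

lemma nrm_contract (Q : Matrix S S ℝ) (c : ℝ) (hc : ∀ x y, c ≤ Q x y)
    (h1 : ∀ x, ∑ y, Q x y = 1) (v : S → ℝ) (hv : ∑ x, v x = 0) :
    nrm (Matrix.vecMul v Q) ≤ (1 - c * Fintype.card S) * nrm v := by
  have e : ∀ y, (Matrix.vecMul v Q) y = ∑ x, v x * (Q x y - c) := by
    intro y
    have : ∑ x, v x * (Q x y - c) = ∑ x, v x * Q x y - (∑ x, v x) * c := by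
      rw [Finset.sum_mul, ← Finset.sum_sub_distrib]
      exact Finset.sum_congr rfl fun x _ => by ring
    rw [this, hv, zero_mul, sub_zero]
    rfl
  have h2 : nrm (Matrix.vecMul v Q) ≤ ∑ y, ∑ x, |v x| * (Q x y - c) := by
    unfold nrm
    refine Finset.sum_le_sum fun y _ => ?_
    rw [e y]
    refine (Finset.abs_sum_le_sum_abs _ _).trans (le_of_eq ?_)
    refine Finset.sum_congr rfl fun x _ => ?_
    rw [abs_mul, abs_of_nonneg (sub_nonneg.2 (hc x y))]
  refine h2.trans (le_of_eq ?_)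
  rw [Finset.sum_comm]
  unfold nrm
  rw [Finset.mul_sum]
  refine Finset.sum_congr rfl fun x _ => ?_
  rw [← Finset.mul_sum, Finset.sum_sub_distrib, h1, Finset.sum_const, Finset.card_univ,
    nsmul_eq_mul]
  ring

lemma pow_nonneg_entry (P : Matrix S S ℝ) (h0 : ∀ x y, 0 ≤ P x y) (n : ℕ) :
    ∀ x y, 0 ≤ (P ^ n) x y := by
  induction n with
  | zero =>
    intro x y
    rw [pow_zero, Matrix.one_apply]
    split_ifs <;> norm_num
  | succ n ih =>
    intro x y
    rw [pow_succ, Matrix.mul_apply]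
    exact Finset.sum_nonneg fun z _ => mul_nonneg (ih x z) (h0 z y)

lemma pow_row_sum (P : Matrix S S ℝ) (h1 : ∀ x, ∑ y, P x y = 1) (n : ℕ) :
    ∀ x, ∑ y, (P ^ n) x y = 1 := by
  induction n with
  | zero =>
    intro x
    simp [Matrix.one_apply]
  | succ n ih =>
    intro x
    simp only [pow_succ, Matrix.mul_apply]
    rw [Finset.sum_comm]
    rw [← ih x]
    refine Finset.sum_congr rfl fun z _ => ?_
    rw [← Finset.mul_sum, h1, mul_one]

/-- If some power of the transition matrix has all entries at least `c > 0`, then every signed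
vector of total mass `0` is contracted to `0`. -/
lemma tendsto_nrm (P : Matrix S S ℝ) (h0 : ∀ x y, 0 ≤ P x y) (h1 : ∀ x, ∑ y, P x y = 1)
    (k : ℕ) (hk : 0 < k) (c : ℝ) (hc : 0 < c) (hP : ∀ x y, c ≤ (P ^ k) x y) (hS : Nonempty S)
    (v : S → ℝ) (hv : ∑ x, v x = 0) :
    Tendsto (fun n => nrm (Matrix.vecMul v (P ^ n))) atTop (𝓝 0) := by
  set ρ : ℝ := 1 - c * Fintype.card S with hρ
  have hcard : (0 : ℝ) < Fintype.card S := by exact_mod_cast Fintype.card_pos
  have hρ1 : ρ < 1 := by rw [hρ]; nlinarith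
  have hρ0 : 0 ≤ ρ := by
    obtain ⟨x⟩ := hS
    have h3 := pow_row_sum P h1 k x
    have h4 : ∑ _y : S, c ≤ ∑ y, (P ^ k) x y := Finset.sum_le_sum fun y _ => hP x y
    rw [h3, Finset.sum_const, Finset.card_univ, nsmul_eq_mul] at h4
    rw [hρ]; linarith
  -- monotone
  have hmono : ∀ w : S → ℝ, ∑ x, w x = 0 → nrm (Matrix.vecMul w P) ≤ nrm w := by
    intro w hw
    have := nrm_contract P 0 (fun x y => h0 x y) h1 w hw
    simpa using this
  have hsum : ∀ n, ∑ x, (Matrix.vecMul v (P ^ n)) x = 0 := by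
    intro n
    rw [sum_vecMul _ (pow_row_sum P h1 n), hv]
  have hanti : Antitone (fun n => nrm (Matrix.vecMul v (P ^ n))) := by
    refine antitone_nat_of_succ_le fun n => ?_
    have : Matrix.vecMul v (P ^ (n + 1)) = Matrix.vecMul (Matrix.vecMul v (P ^ n)) P := by
      rw [pow_succ, Matrix.vecMul_vecMul]
    rw [this]
    exact hmono _ (hsum n)
  have hgeo : ∀ m : ℕ, nrm (Matrix.vecMul v (P ^ (k * m))) ≤ ρ ^ m * nrm v := by
    intro m
    induction m with
    | zero => simp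
    | succ m ih =>
      have : Matrix.vecMul v (P ^ (k * (m + 1))) =
          Matrix.vecMul (Matrix.vecMul v (P ^ (k * m))) (P ^ k) := by
        rw [Matrix.vecMul_vecMul, ← pow_add, Nat.mul_succ]
      rw [this]
      refine (nrm_contract (P ^ k) c hP (pow_row_sum P h1 k) _ (hsum _)).trans ?_
      rw [← hρ, pow_succ, mul_comm (ρ ^ m) ρ, mul_assoc]
      exact mul_le_mul_of_nonneg_left ih hρ0
  have hb : ∀ n : ℕ, nrm (Matrix.vecMul v (P ^ n)) ≤ ρ ^ (n / k) * nrm v := by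
    intro n
    have h5 : k * (n / k) ≤ n := Nat.mul_div_le n k
    exact (hanti h5).trans (hgeo (n / k))
  have ht : Tendsto (fun n : ℕ => ρ ^ (n / k) * nrm v) atTop (𝓝 0) := by
    have h6 : Tendsto (fun m : ℕ => ρ ^ m) atTop (𝓝 0) :=
      tendsto_pow_atTop_nhds_zero_of_lt_one hρ0 hρ1
    have h7 : Tendsto (fun n : ℕ => n / k) atTop atTop := by
      refine tendsto_atTop_atTop.2 fun b => ⟨k * b, fun a ha => ?_⟩
      rw [Nat.le_div_iff_mul_le hk, mul_comm]; exact ha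
    simpa using (h6.comp h7).mul_const (nrm v)
  exact squeeze_zero (fun n => nrm_nonneg _) hb ht

lemma vecMul_pow_stat (P : Matrix S S ℝ) (π : S → ℝ) (hπ : Matrix.vecMul π P = π) (n : ℕ) :
    Matrix.vecMul π (P ^ n) = π := by
  induction n with
  | zero => simp
  | succ n ih => rw [pow_succ, ← Matrix.vecMul_vecMul, ih, hπ]

/-- convergence -/
lemma tendsto_of_pos (P : Matrix S S ℝ) (h0 : ∀ x y, 0 ≤ P x y) (h1 : ∀ x, ∑ y, P x y = 1)
    (k : ℕ) (hk : 0 < k) (c : ℝ) (hc : 0 < c) (hP : ∀ x y, c ≤ (P ^ k) x y) (hS : Nonempty S)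
    (π : S → ℝ) (hπ : Matrix.vecMul π P = π) (hπ1 : ∑ x, π x = 1)
    (ν : S → ℝ) (hν : ∑ x, ν x = 1) (y : S) :
    Tendsto (fun n => (Matrix.vecMul ν (P ^ n)) y) atTop (𝓝 (π y)) := by
  have hv : ∑ x, (ν - π) x = 0 := by simp [Finset.sum_sub_distrib, hν, hπ1]
  have h2 := tendsto_nrm P h0 h1 k hk c hc hP hS (ν - π) hv
  rw [tendsto_iff_norm_sub_tendsto_zero]
  refine squeeze_zero (fun n => norm_nonneg _) (fun n => ?_) h2
  have h3 : (Matrix.vecMul ν (P ^ n)) y - π y = (Matrix.vecMul (ν - π) (P ^ n)) y := by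
    rw [Matrix.sub_vecMul, vecMul_pow_stat P π hπ n, Pi.sub_apply]
  rw [h3, Real.norm_eq_abs]
  exact Finset.single_le_sum (f := fun x => |(Matrix.vecMul (ν - π) (P ^ n)) x|)
    (fun x _ => abs_nonneg _) (Finset.mem_univ y)

/-- uniqueness -/
lemma unique_of_pos (P : Matrix S S ℝ) (h0 : ∀ x y, 0 ≤ P x y) (h1 : ∀ x, ∑ y, P x y = 1)
    (k : ℕ) (hk : 0 < k) (c : ℝ) (hc : 0 < c) (hP : ∀ x y, c ≤ (P ^ k) x y) (hS : Nonempty S)
    (π π' : S → ℝ) (hπ : Matrix.vecMul π P = π) (hπ1 : ∑ x, π x = 1)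
    (hπ' : Matrix.vecMul π' P = π') (hπ1' : ∑ x, π' x = 1) : π' = π := by
  funext y
  have h2 := tendsto_of_pos P h0 h1 k hk c hc hP hS π hπ hπ1 π' hπ1' y
  have h3 : (fun n => (Matrix.vecMul π' (P ^ n)) y) = fun _ => π' y := by
    funext n; rw [vecMul_pow_stat P π' hπ' n]
  rw [h3] at h2
  exact tendsto_nhds_unique tendsto_const_nhds h2

end Pool.Agent.Q208.Doeblin
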