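import Mathlib

/-!
Steiner systems `S(p,k,2)`, `p` prime, from base blocks with a group of multipliers, and the product
of a Steiner system `S(u,k,2)` with a system on a prime number of points.
-/

set_option autoImplicit false

namespace Pool.Agent.Q208.MD

open Finset

/-- a Steiner system with blocks of size `k` on the set `X` -/
def Ex (k : ℕ) (X : Type) : Prop :=
  ∃ 𝓑 : Set (Finset X), (∀ B ∈ 𝓑, B.card = k) ∧
    ∀ a b : X, a ≠ b → ∃! B, B ∈ 𝓑 ∧ a ∈ B ∧ b ∈ B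

theorem Ex.congr {k : ℕ} {X Y : Type} (e : X ≃ Y) (h : Ex k X) : Ex k Y := by
  classical
  obtain ⟨𝓑, h1, h2⟩ := h
  refine ⟨{C | ∃ B ∈ 𝓑, C = B.map e.toEmbedding}, ?_, ?_⟩
  · rintro C ⟨B, hB, rfl⟩
    rw [card_map]
    exact h1 B hB
  · intro a b hab
    obtain ⟨B, ⟨hB, ha, hb⟩, hu⟩ := h2 (e.symm a) (e.symm b) (fun h => hab (e.symm.injective h))
    refine ⟨B.map e.toEmbedding, ⟨⟨B, hB, rfl⟩, ?_, ?_⟩, ?_⟩
    · rwa [mem_map_equiv]
    · rwa [mem_map_equiv]
    · rintro C ⟨⟨B', hB', rfl⟩, ha', hb'⟩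
      rw [mem_map_equiv] at ha' hb'
      rw [hu B' ⟨hB', ha', hb'⟩]

/-- weight `p` on the points of a system: the product theorem -/
theorem Ex.prod {k p : ℕ} [hp : Fact p.Prime] (hkp : k ≤ p) {X : Type} (h : Ex k X)
    (hZ : Ex k (ZMod p)) : Ex k (X × ZMod p) := by
  classical
  obtain ⟨𝓑, h1, h2⟩ := h
  obtain ⟨𝓒, h3, h4⟩ := hZ
  -- an injection of each block into the field
  have hc : ∀ B : Finset X, ∃ c : X → ZMod p, B ∈ 𝓑 → Set.InjOn c B := by
    intro B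
    by_cases hB : B ∈ 𝓑
    · have h5 : Fintype.card B ≤ Fintype.card (ZMod p) := by
        rw [Fintype.card_coe, h1 B hB, ZMod.card]
        exact hkp
      obtain ⟨e⟩ := Function.Embedding.nonempty_of_card_le h5
      refine ⟨fun x => if hx : x ∈ B then e ⟨x, hx⟩ else 0, fun _ x hx y hy hxy => ?_⟩
      simp only [mem_coe] at hx hy
      simp only [hx, hy, dif_pos] at hxy
      exact congrArg Subtype.val (e.injective hxy)
    · exact ⟨fun _ => 0, fun h => absurd h hB⟩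
  choose c hc using hc
  let blk : Finset X → ZMod p → ZMod p → Finset (X × ZMod p) := fun B a b =>
    B.image (fun x => (x, a + c B x * b))
  let fib : X → Finset (ZMod p) → Finset (X × ZMod p) := fun x C => C.image (fun z => (x, z))
  have hblk : ∀ B a b x z, (x, z) ∈ blk B a b ↔ x ∈ B ∧ z = a + c B x * b := by
    intro B a b x z
    simp only [blk, mem_image, Prod.mk.injEq]
    constructor
    · rintro ⟨x', hx', rfl, rfl⟩
      exact ⟨hx', rfl⟩
    · rintro ⟨hx, rfl⟩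
      exact ⟨x, hx, rfl, rfl⟩
  have hfib : ∀ x' C x z, (x, z) ∈ fib x' C ↔ x = x' ∧ z ∈ C := by
    intro x' C x z
    simp only [fib, mem_image, Prod.mk.injEq]
    constructor
    · rintro ⟨z', hz', rfl, rfl⟩
      exact ⟨rfl, hz'⟩
    · rintro ⟨rfl, hz⟩
      exact ⟨z, hz, rfl, rfl⟩
  refine ⟨{D | (∃ B ∈ 𝓑, ∃ a b, D = blk B a b) ∨ ∃ x, ∃ C ∈ 𝓒, D = fib x C}, ?_, ?_⟩
  · rintro D (⟨B, hB, a, b, rfl⟩ | ⟨x, C, hC, rfl⟩)
    · rw [← h1 B hB]
      exact card_image_of_injective _ fun x y h => (Prod.ext_iff.1 h).1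
    · rw [← h3 C hC]
      exact card_image_of_injective _ fun x y h => (Prod.ext_iff.1 h).2
  · rintro ⟨x, z⟩ ⟨x', z'⟩ hne
    by_cases hxx : x = x'
    · subst hxx
      have hz : z ≠ z' := fun h => hne (by rw [h])
      obtain ⟨C, ⟨hC, hz1, hz2⟩, hu⟩ := h4 z z' hz
      refine ⟨fib x C, ⟨Or.inr ⟨x, C, hC, rfl⟩, (hfib _ _ _ _).2 ⟨rfl, hz1⟩,
        (hfib _ _ _ _).2 ⟨rfl, hz2⟩⟩, ?_⟩
      rintro D ⟨⟨B, hB, a, b, rfl⟩ | ⟨x1, C', hC', rfl⟩, hD1, hD2⟩
      · rw [hblk] at hD1 hD2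
        exact absurd (hD1.2.trans hD2.2.symm) hz
      · rw [hfib] at hD1 hD2
        obtain ⟨rfl, hD1⟩ := hD1
        rw [hu C' ⟨hC', hD1, hD2.2⟩]
    · obtain ⟨B, ⟨hB, hx, hx'⟩, hu⟩ := h2 x x' hxx
      have hcc : c B x - c B x' ≠ 0 := fun h =>
        hxx (hc B hB (mem_coe.2 hx) (mem_coe.2 hx') (sub_eq_zero.1 h))
      refine ⟨blk B (z - c B x * ((z - z') / (c B x - c B x'))) ((z - z') / (c B x - c B x')),
        ⟨Or.inl ⟨B, hB, _, _, rfl⟩, (hblk _ _ _ _ _).2 ⟨hx, by ring⟩,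
          (hblk _ _ _ _ _).2 ⟨hx', by field_simp; ring⟩⟩, ?_⟩
      rintro D ⟨⟨B', hB', a, b, rfl⟩ | ⟨x1, C', hC', rfl⟩, hD1, hD2⟩
      · rw [hblk] at hD1 hD2
        have hBB : B' = B := hu B' ⟨hB', hD1.1, hD2.1⟩
        subst hBB
        have e1 : b = (z - z') / (c B' x - c B' x') := by
          rw [hD1.2, hD2.2, eq_div_iff hcc]
          ring
        have e2 : a = z - c B' x * ((z - z') / (c B' x - c B' x')) := by
          rw [← e1, hD1.2]
          ring
        rw [← e1] at e2 ⊢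
        rw [← e2]
      · rw [hfib] at hD1 hD2
        exact absurd (hD1.1.trans hD2.1.symm) hxx

/-- **Base blocks with multipliers.**  `c` is the order of the group `U` of the `c`-th roots of unity,
the multipliers are representatives of the `c τ`-th roots of unity modulo `U`. -/
theorem core {p k s c τ : ℕ} [hp : Fact p.Prime] (B : Fin s → Finset (ZMod p))
    (hB : ∀ j, (B j).card = k) (hc : 0 < c) (hcount : s * (k * k - k) * τ = p - 1)
    (hdiv : c * τ ∣ p - 1)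
    (hinj : ∀ j, ∀ x ∈ B j, ∀ y ∈ B j, x ≠ y → ∀ j', ∀ x' ∈ B j', ∀ y' ∈ B j', x' ≠ y' →
      x - y = x' - y' → j = j' ∧ x = x' ∧ y = y')
    (hcls : ∀ j, ∀ x ∈ B j, ∀ y ∈ B j, x ≠ y → ∀ j', ∀ x' ∈ B j', ∀ y' ∈ B j', x' ≠ y' →
      (x - y) ^ (c * τ) = (x' - y') ^ (c * τ) → (x - y) ^ c = (x' - y') ^ c) :
    Ex k (ZMod p) := by
  classical
  obtain ⟨g, hg⟩ := IsCyclic.exists_generator (α := (ZMod p)ˣ)
  have hgo : orderOf g = p - 1 := by
    rw [orderOf_eq_card_of_forall_mem_zpowers hg, Nat.card_eq_fintype_card, ZMod.card_units_eq_totient,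
      Nat.totient_prime hp.out]
  have hp1 : 0 < p - 1 := by have := hp.out.two_le; omega
  obtain ⟨n, hn⟩ := hdiv
  have hn0 : 0 < n := by
    rcases Nat.eq_zero_or_pos n with h | h
    · subst h; omega
    · exact h
  set γ : (ZMod p)ˣ := g ^ n with hγ
  -- the multipliers
  have hγm : γ ^ (c * τ) = 1 := by
    rw [hγ, ← pow_mul, mul_comm n, ← hn, ← hgo, pow_orderOf_eq_one]
  have hγc : orderOf (γ ^ c) = τ := by
    rw [hγ, ← pow_mul, orderOf_pow_of_dvd (by positivity), hgo, hn]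
    · rw [show c * τ * n = n * c * τ by ring]
      exact Nat.mul_div_cancel_left _ (by positivity)
    · rw [hgo, hn]
      exact ⟨τ, by ring⟩
  let T : Finset (ZMod p)ˣ := (range τ).image (fun i => γ ^ i)
  have hTinj : ∀ t ∈ T, ∀ t' ∈ T, (t : (ZMod p)ˣ) ^ c = t' ^ c → t = t' := by
    intro t ht t' ht' h
    obtain ⟨i, hi, rfl⟩ := mem_image.1 ht
    obtain ⟨i', hi', rfl⟩ := mem_image.1 ht'
    rw [mem_range] at hi hi'
    have h : (γ ^ c) ^ i = (γ ^ c) ^ i' := by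
      rw [pow_right_comm, h, pow_right_comm]
    have := pow_injOn_Iio_orderOf (x := γ ^ c) (by rw [hγc]; exact hi) (by rw [hγc]; exact hi') h
    rw [this]
  have hTcard : T.card = τ := by
    rw [card_image_of_injOn, card_range]
    intro i hi i' hi' h
    rw [coe_range, Set.mem_Iio] at hi hi'
    have h' : (γ ^ c) ^ i = (γ ^ c) ^ i' := by
      simp only at h
      rw [pow_right_comm, h, pow_right_comm]
    exact pow_injOn_Iio_orderOf (x := γ ^ c) (by rw [hγc]; exact hi) (by rw [hγc]; exact hi') h'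
  have hTm : ∀ t ∈ T, (t : (ZMod p)ˣ) ^ (c * τ) = 1 := by
    intro t ht
    obtain ⟨i, -, rfl⟩ := mem_image.1 ht
    rw [← pow_mul, mul_comm i, pow_mul, hγm, one_pow]
  -- all products of multipliers and differences
  let P : Finset ((ZMod p)ˣ × (Σ _ : Fin s, ZMod p × ZMod p)) :=
    T ×ˢ (univ.sigma fun j => (B j).offDiag)
  let f : (ZMod p)ˣ × (Σ _ : Fin s, ZMod p × ZMod p) → ZMod p := fun q =>
    (q.1 : ZMod p) * (q.2.2.1 - q.2.2.2)
  have hPm : ∀ q, q ∈ P ↔ q.1 ∈ T ∧ q.2.2.1 ∈ B q.2.1 ∧ q.2.2.2 ∈ B q.2.1 ∧ q.2.2.1 ≠ q.2.2.2 := by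
    intro q
    simp only [P, mem_product, mem_sigma, mem_univ, true_and, mem_offDiag]
  have hf0 : ∀ q ∈ P, f q ≠ 0 := by
    intro q hq
    rw [hPm] at hq
    exact mul_ne_zero (Units.ne_zero _) (sub_ne_zero.2 hq.2.2.2)
  have hfinj : ∀ q ∈ P, ∀ q' ∈ P, f q = f q' → q = q' := by
    rintro ⟨t, j, x, y⟩ hq ⟨t', j', x', y'⟩ hq' h
    rw [hPm] at hq hq'
    simp only at hq hq'
    obtain ⟨ht, hx, hy, hxy⟩ := hq
    obtain ⟨ht', hx', hy', hxy'⟩ := hq'
    have h1 : (t : ZMod p) * (x - y) = t' * (x' - y') := h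
    have e1 : (t : ZMod p) ^ (c * τ) = 1 := by
      rw [← Units.val_pow_eq_pow_val, hTm t ht, Units.val_one]
    have e2 : (t' : ZMod p) ^ (c * τ) = 1 := by
      rw [← Units.val_pow_eq_pow_val, hTm t' ht', Units.val_one]
    have h2 : (x - y) ^ (c * τ) = (x' - y') ^ (c * τ) := by
      have := congrArg (fun z => z ^ (c * τ)) h1
      simp only [mul_pow, e1, e2, one_mul] at this
      exact this
    have h3 := hcls j x hx y hy hxy j' x' hx' y' hy' hxy' h2
    have h4 : (t : ZMod p) ^ c = (t' : ZMod p) ^ c := by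
      have := congrArg (fun z => z ^ c) h1
      simp only [mul_pow, h3] at this
      exact mul_right_cancel₀ (pow_ne_zero _ (sub_ne_zero.2 hxy')) this
    have h5 : t = t' := hTinj t ht t' ht' (Units.ext (by push_cast; exact h4))
    subst h5
    have h6 : x - y = x' - y' := mul_left_cancel₀ (Units.ne_zero t) h1
    obtain ⟨rfl, rfl, rfl⟩ := hinj j x hx y hy hxy j' x' hx' y' hy' hxy' h6
    rfl
  have hPcard : P.card = p - 1 := by
    rw [card_product, hTcard, card_sigma]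
    have : ∀ j ∈ (univ : Finset (Fin s)), (B j).offDiag.card = k * k - k := by
      intro j _
      rw [offDiag_card, hB]
    rw [sum_congr rfl this, sum_const, card_univ, Fintype.card_fin, smul_eq_mul, ← hcount]
    ring
  have himg : P.image f = univ.erase 0 := by
    refine eq_of_subset_of_card_le ?_ ?_
    · intro d hd
      obtain ⟨q, hq, rfl⟩ := mem_image.1 hd
      exact mem_erase.2 ⟨hf0 q hq, mem_univ _⟩
    · rw [card_image_of_injOn fun q hq q' hq' h => hfinj q (mem_coe.1 hq) q' (mem_coe.1 hq') h,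
        hPcard, card_erase_of_mem (mem_univ _), card_univ, ZMod.card]
  -- the blocks
  let blk : (ZMod p)ˣ → Fin s → ZMod p → Finset (ZMod p) := fun t j a =>
    (B j).image (fun x => (t : ZMod p) * x + a)
  have hblk : ∀ t j a z, z ∈ blk t j a ↔ ∃ x ∈ B j, (t : ZMod p) * x + a = z := by
    intro t j a z
    exact mem_image
  refine ⟨{D | ∃ t ∈ T, ∃ j a, D = blk t j a}, ?_, ?_⟩
  · rintro D ⟨t, _, j, a, rfl⟩
    rw [← hB j]
    refine card_image_of_injective _ fun x y h => ?_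
    exact mul_left_cancel₀ (Units.ne_zero t) (add_right_cancel h)
  · intro z z' hzz
    have hd : z - z' ∈ P.image f := by
      rw [himg]
      exact mem_erase.2 ⟨sub_ne_zero.2 hzz, mem_univ _⟩
    obtain ⟨⟨t, j, x, y⟩, hq, hqf⟩ := mem_image.1 hd
    have hq' := (hPm _).1 hq
    simp only at hq'
    obtain ⟨ht, hx, hy, hxy⟩ := hq'
    have h1 : (t : ZMod p) * (x - y) = z - z' := hqf
    refine ⟨blk t j (z - t * x), ⟨⟨t, ht, j, _, rfl⟩, (hblk _ _ _ _).2 ⟨x, hx, by ring⟩,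
      (hblk _ _ _ _).2 ⟨y, hy, by linear_combination -h1⟩⟩, ?_⟩
    rintro D ⟨⟨t', ht', j', a', rfl⟩, hz, hz'⟩
    obtain ⟨x', hx', rfl⟩ := (hblk _ _ _ _).1 hz
    obtain ⟨y', hy', rfl⟩ := (hblk _ _ _ _).1 hz'
    have hxy' : x' ≠ y' := fun h => hzz (by rw [h])
    have h2 : f (t, ⟨j, x, y⟩) = f (t', ⟨j', x', y'⟩) := by
      show (t : ZMod p) * (x - y) = t' * (x' - y')
      rw [h1]
      ring
    have h3 := hfinj _ hq _ ((hPm _).2 ⟨ht', hx', hy', hxy'⟩) h2
    obtain ⟨rfl, h4⟩ := Prod.ext_iff.1 h3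
    simp only at h4
    obtain ⟨rfl, h5⟩ := Sigma.mk.inj_iff.1 h4
    obtain ⟨rfl, rfl⟩ := Prod.ext_iff.1 (eq_of_heq h5)
    simp

end Pool.Agent.Q208.MD
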