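import Pool.Agent.Q208.MD

/-!
The check of a family of base blocks with natural numbers.
-/

set_option autoImplicit false

namespace Pool.Agent.Q208.MD

open Finset

/-- membership -/
def memB (a : ℕ) : List ℕ → Bool
  | [] => false
  | b :: l => cond (Nat.beq a b) true (memB a l)

theorem memB_iff {a : ℕ} : ∀ {l : List ℕ}, memB a l = true ↔ a ∈ l
  | [] => by simp [memB]
  | b :: l => by
    unfold memB
    rw [List.mem_cons]
    cases h : Nat.beq a b with
    | true => simp [Nat.eq_of_beq_eq_true h]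
    | false =>
      have : a ≠ b := Nat.ne_of_beq_eq_false h
      simp [this, memB_iff]

/-- no repetitions -/
def ndB : List ℕ → Bool
  | [] => true
  | a :: l => cond (memB a l) false (ndB l)

theorem ndB_nodup : ∀ {l : List ℕ}, ndB l = true → l.Nodup
  | [], _ => List.nodup_nil
  | a :: l, h => by
    unfold ndB at h
    cases ha : memB a l with
    | true => rw [ha] at h; exact absurd h (by simp)
    | false =>
      rw [ha] at h
      refine List.nodup_cons.2 ⟨fun hm => ?_, ndB_nodup h⟩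
      rw [memB_iff.2 hm] at ha
      exact absurd ha (by simp)

/-- no repetitions modulo `q`, the residues found before are the bits of `M` -/
def ndq (q : ℕ) : List ℕ → ℕ → Bool
  | [], _ => true
  | a :: l, M => cond (Nat.beq (Nat.land (Nat.shiftRight M (Nat.mod a q)) 1) 1) false
      (ndq q l (Nat.lor M (Nat.pow 2 (Nat.mod a q))))

theorem land_one_beq (M r : ℕ) : Nat.beq (Nat.land (Nat.shiftRight M r) 1) 1 = M.testBit r := by
  have h : Nat.land (Nat.shiftRight M r) 1 = (M.testBit r).toNat := by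
    show (M >>> r) &&& 1 = _
    rw [Nat.and_one_is_mod, Nat.testBit_eq_decide_div_mod_eq, Nat.shiftRight_eq_div_pow]
    rcases Nat.mod_two_eq_zero_or_one (M / 2 ^ r) with h | h <;> simp [h]
  rw [h]
  cases M.testBit r <;> rfl

theorem ndq_spec {q : ℕ} : ∀ {l : List ℕ} {M : ℕ}, ndq q l M = true →
    l.Nodup ∧ ∀ a ∈ l, M.testBit (a % q) = false
  | [], _, _ => ⟨List.nodup_nil, fun _ h => absurd h (by simp)⟩
  | a :: l, M, h => by
    unfold ndq at h
    rw [land_one_beq] at h
    have ha : M.testBit (Nat.mod a q) = false := by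
      by_contra hcon
      rw [Bool.not_eq_false] at hcon
      rw [hcon] at h
      exact absurd h (by simp)
    rw [ha] at h
    obtain ⟨h1, h2⟩ := ndq_spec (l := l) h
    have h3 : ∀ b ∈ l, M.testBit (b % q) = false ∧ a % q ≠ b % q := by
      intro b hb
      have h4 := h2 b hb
      have h5 : Nat.lor M (Nat.pow 2 (Nat.mod a q)) = M ||| 2 ^ (a % q) := rfl
      rw [h5, Nat.testBit_or, Bool.or_eq_false_iff] at h4
      refine ⟨h4.1, fun hab => ?_⟩
      rw [hab, Nat.testBit_two_pow_self] at h4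
      exact absurd h4.2 (by simp)
    refine ⟨List.nodup_cons.2 ⟨fun hm => (h3 a hm).2 rfl, h1⟩, ?_⟩
    intro b hb
    rcases List.mem_cons.1 hb with rfl | hb
    · exact ha
    · exact (h3 b hb).1

/-- the differences of a block -/
def difs (p : ℕ) (B : List ℕ) : List ℕ :=
  B.flatMap fun x => B.flatMap fun y => cond (Nat.beq x y) [] [(x + (p - y)) % p]

theorem mem_difs {p d : ℕ} {B : List ℕ} :
    d ∈ difs p B ↔ ∃ x ∈ B, ∃ y ∈ B, x ≠ y ∧ d = (x + (p - y)) % p := by
  unfold difs
  simp only [List.mem_flatMap]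
  constructor
  · rintro ⟨x, hx, y, hy, hd⟩
    cases h : Nat.beq x y with
    | true => rw [h] at hd; exact absurd hd (by simp)
    | false =>
      rw [h] at hd
      exact ⟨x, hx, y, hy, Nat.ne_of_beq_eq_false h, by simpa using hd⟩
  · rintro ⟨x, hx, y, hy, hne, rfl⟩
    refine ⟨x, hx, y, hy, ?_⟩
    have : Nat.beq x y = false := by
      cases h : Nat.beq x y with
      | true => exact absurd (Nat.eq_of_beq_eq_true h) hne
      | false => rfl
    rw [this]
    simp

/-- if the list of the differences has no repetitions, a difference determines its pair -/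
theorem difs_inj {p : ℕ} {B : List ℕ} (hnd : (difs p B).Nodup) {x y x' y' : ℕ}
    (hx : x ∈ B) (hy : y ∈ B) (hxy : x ≠ y) (hx' : x' ∈ B) (hy' : y' ∈ B) (hxy' : x' ≠ y')
    (h : (x + (p - y)) % p = (x' + (p - y')) % p) : x = x' ∧ y = y' := by
  unfold difs at hnd
  rw [List.nodup_flatMap] at hnd
  obtain ⟨h1, h2⟩ := hnd
  have hin : ∀ x y : ℕ, y ∈ B → x ≠ y → (x + (p - y)) % p ∈
      B.flatMap fun y => cond (Nat.beq x y) [] [(x + (p - y)) % p] := by
    intro x y hy hxy
    rw [List.mem_flatMap]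
    refine ⟨y, hy, ?_⟩
    have : Nat.beq x y = false := by
      cases h : Nat.beq x y with
      | true => exact absurd (Nat.eq_of_beq_eq_true h) hxy
      | false => rfl
    rw [this]
    simp
  have hxx : x = x' := by
    by_contra hne
    obtain ⟨i, hi, rfl⟩ := List.mem_iff_getElem.1 hx
    obtain ⟨j, hj, rfl⟩ := List.mem_iff_getElem.1 hx'
    have hij : i ≠ j := fun h => hne (by subst h; rfl)
    rw [List.pairwise_iff_getElem] at h2
    rcases Nat.lt_or_gt_of_ne hij with hl | hl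
    · have := h2 i j hi hj hl
      simp only [Function.onFun] at this
      exact this (hin _ _ hy hxy) (h ▸ hin _ _ hy' hxy')
    · have := h2 j i hj hi hl
      simp only [Function.onFun] at this
      exact this (hin _ _ hy' hxy') (h ▸ hin _ _ hy hxy)
  subst hxx
  refine ⟨rfl, ?_⟩
  have h3 := h1 x hx
  rw [List.nodup_flatMap] at h3
  by_contra hne
  obtain ⟨i, hi, rfl⟩ := List.mem_iff_getElem.1 hy
  obtain ⟨j, hj, rfl⟩ := List.mem_iff_getElem.1 hy'
  have hij : i ≠ j := fun h => hne (by subst h; rfl)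
  have hb : ∀ y, x ≠ y → Nat.beq x y = false := by
    intro y hxy
    cases h : Nat.beq x y with
    | true => exact absurd (Nat.eq_of_beq_eq_true h) hxy
    | false => rfl
  have h4 := h3.2
  rw [List.pairwise_iff_getElem] at h4
  rcases Nat.lt_or_gt_of_ne hij with hl | hl
  · have := h4 i j hi hj hl
    simp only [Function.onFun, hb _ hxy, hb _ hxy', cond_false] at this
    rw [h] at this
    exact this (List.mem_singleton.2 rfl) (List.mem_singleton.2 rfl)
  · have := h4 j i hj hi hl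
    simp only [Function.onFun, hb _ hxy, hb _ hxy', cond_false] at this
    rw [h] at this
    exact this (List.mem_singleton.2 rfl) (List.mem_singleton.2 rfl)

/-- the check of a family: `c` roots of unity, `τ` multipliers, base blocks `L`, the classes `E`, an
auxiliary modulus `q` -/
def okF (k c p q τ : ℕ) (L : List (List ℕ)) (E : List ℕ) : Bool :=
  L.all (fun B => Nat.beq B.length k && ndB B && B.all (fun x => Nat.blt x p)) &&
  Nat.blt 0 c && Nat.blt 0 τ && Nat.beq (L.length * (k * k - k) * τ) (p - 1) &&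
  Nat.beq ((p - 1) % (c * τ)) 0 && ndq q (L.flatMap (difs p)) 0 &&
  (L.flatMap (difs p)).all (fun d => memB (Nat.mod (Nat.pow d c) p) E) &&
  ndB (E.map (fun e => Nat.mod (Nat.pow e τ) p))

theorem cast_dif {p x y : ℕ} (hy : y < p) :
    (((x + (p - y)) % p : ℕ) : ZMod p) = (x : ZMod p) - (y : ZMod p) := by
  rw [ZMod.natCast_mod]
  push_cast [Nat.cast_sub hy.le]
  simp
  ring

theorem okF_spec {k c p q τ : ℕ} (hp : p.Prime) {L : List (List ℕ)} {E : List ℕ}
    (h : okF k c p q τ L E = true) : Ex k (ZMod p) := by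
  classical
  haveI : Fact p.Prime := ⟨hp⟩
  unfold okF at h
  simp only [Bool.and_eq_true, List.all_eq_true, Nat.beq_eq, Nat.blt_eq] at h
  obtain ⟨⟨⟨⟨⟨⟨⟨hL, hc⟩, hτ⟩, hcount⟩, hdiv⟩, hnd⟩, hE⟩, hχ⟩ := h
  have hnd' := (ndq_spec hnd).1
  rw [List.nodup_flatMap] at hnd'
  obtain ⟨hn1, hn2⟩ := hnd'
  have hlt : ∀ B ∈ L, ∀ x ∈ B, x < p := fun B hB x hx => (hL B hB).2 x hx
  have hcast : ∀ B ∈ L, ∀ x ∈ B, ∀ y ∈ B, (x : ZMod p) = (y : ZMod p) → x = y := by
    intro B hB x hx y hy hxy
    rw [ZMod.natCast_eq_natCast_iff', Nat.mod_eq_of_lt (hlt B hB x hx),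
      Nat.mod_eq_of_lt (hlt B hB y hy)] at hxy
    exact hxy
  let Bf : Fin L.length → Finset (ZMod p) := fun j => (L[j].map (fun x : ℕ => (x : ZMod p))).toFinset
  have hBf : ∀ j z, z ∈ Bf j ↔ ∃ x ∈ L[j], (x : ZMod p) = z := by
    intro j z
    simp only [Bf, List.mem_toFinset, List.mem_map]
  have hLj : ∀ j : Fin L.length, L[j] ∈ L := fun j => List.getElem_mem _
  refine core (s := L.length) (c := c) (τ := τ) Bf ?_ hc hcount (Nat.dvd_of_mod_eq_zero hdiv) ?_ ?_
  · intro j
    have h1 := (hL _ (hLj j)).1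
    rw [List.toFinset_card_of_nodup, List.length_map]
    · exact h1.1
    · exact List.Nodup.map_on (fun x hx y hy hxy => hcast _ (hLj j) x hx y hy hxy) (ndB_nodup h1.2)
  · intro j x hx y hy hxy j' x' hx' y' hy' hxy' h
    obtain ⟨a, ha, rfl⟩ := (hBf _ _).1 hx
    obtain ⟨b, hb, rfl⟩ := (hBf _ _).1 hy
    obtain ⟨a', ha', rfl⟩ := (hBf _ _).1 hx'
    obtain ⟨b', hb', rfl⟩ := (hBf _ _).1 hy'
    have hab : a ≠ b := fun h => hxy (by rw [h])
    have hab' : a' ≠ b' := fun h => hxy' (by rw [h])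
    have hd : (a + (p - b)) % p = (a' + (p - b')) % p := by
      have h1 : (((a + (p - b)) % p : ℕ) : ZMod p) = (((a' + (p - b')) % p : ℕ) : ZMod p) := by
        rw [cast_dif (hlt _ (hLj j) b hb), cast_dif (hlt _ (hLj j') b' hb')]
        exact h
      rw [ZMod.natCast_eq_natCast_iff', Nat.mod_mod, Nat.mod_mod] at h1
      exact h1
    have hjj : j = j' := by
      by_contra hne
      rw [List.pairwise_iff_getElem] at hn2
      have hm1 : (a + (p - b)) % p ∈ difs p L[j] := mem_difs.2 ⟨a, ha, b, hb, hab, rfl⟩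
      have hm2 : (a + (p - b)) % p ∈ difs p L[j'] := mem_difs.2 ⟨a', ha', b', hb', hab', hd⟩
      rcases Nat.lt_or_gt_of_ne (fun h => hne (Fin.ext h) : (j : ℕ) ≠ j') with hl | hl
      · exact hn2 j j' j.2 j'.2 hl hm1 hm2
      · exact hn2 j' j j'.2 j.2 hl hm2 hm1
    subst hjj
    obtain ⟨rfl, rfl⟩ := difs_inj (hn1 _ (hLj j)) ha hb hab ha' hb' hab' hd
    exact ⟨rfl, rfl, rfl⟩
  · intro j x hx y hy hxy j' x' hx' y' hy' hxy' h
    obtain ⟨a, ha, rfl⟩ := (hBf _ _).1 hx
    obtain ⟨b, hb, rfl⟩ := (hBf _ _).1 hy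
    obtain ⟨a', ha', rfl⟩ := (hBf _ _).1 hx'
    obtain ⟨b', hb', rfl⟩ := (hBf _ _).1 hy'
    have hab : a ≠ b := fun h => hxy (by rw [h])
    have hab' : a' ≠ b' := fun h => hxy' (by rw [h])
    have key : ∀ (j : Fin L.length) (a b : ℕ), a ∈ L[j] → b ∈ L[j] → a ≠ b →
        ∃ e ∈ E, (e : ZMod p) = ((a : ZMod p) - b) ^ c ∧
          ((Nat.mod (Nat.pow e τ) p : ℕ) : ZMod p) = ((a : ZMod p) - b) ^ (c * τ) := by
      intro j a b ha hb hab
      have h1 := hE _ (List.mem_flatMap.2 ⟨L[j], hLj j, mem_difs.2 ⟨a, ha, b, hb, hab, rfl⟩⟩)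
      rw [memB_iff] at h1
      refine ⟨_, h1, ?_, ?_⟩
      · show ((((a + (p - b)) % p) ^ c % p : ℕ) : ZMod p) = _
        rw [ZMod.natCast_mod, Nat.cast_pow, cast_dif (hlt _ (hLj j) b hb)]
      · show ((((((a + (p - b)) % p) ^ c % p) ^ τ) % p : ℕ) : ZMod p) = _
        rw [ZMod.natCast_mod, Nat.cast_pow, ZMod.natCast_mod, Nat.cast_pow,
          cast_dif (hlt _ (hLj j) b hb), pow_mul]
    obtain ⟨e, he, h1, h2⟩ := key j a b ha hb hab
    obtain ⟨e', he', h3, h4⟩ := key j' a' b' ha' hb' hab'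
    rw [← h1, ← h3]
    have h5 : ((Nat.mod (Nat.pow e τ) p : ℕ) : ZMod p) = ((Nat.mod (Nat.pow e' τ) p : ℕ) : ZMod p) := by
      rw [h2, h4]
      exact h
    have h6 : Nat.mod (Nat.pow e τ) p = Nat.mod (Nat.pow e' τ) p := by
      rw [ZMod.natCast_eq_natCast_iff'] at h5
      have e1 : Nat.mod (Nat.pow e τ) p % p = Nat.mod (Nat.pow e τ) p := Nat.mod_mod _ _
      have e2 : Nat.mod (Nat.pow e' τ) p % p = Nat.mod (Nat.pow e' τ) p := Nat.mod_mod _ _
      rw [e1, e2] at h5
      exact h5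
    have h7 := List.inj_on_of_nodup_map (ndB_nodup hχ) he he' h6
    rw [h7]

/-- trial division up to 450 -/
def primeB (n : ℕ) : Bool :=
  (List.range 449).all (fun i => Nat.ble n (i + 2) || !(Nat.beq (Nat.mod n (i + 2)) 0))

theorem primeB_iff {n : ℕ} (h2 : 2 ≤ n) (hn : n < 202500) : primeB n = true ↔ n.Prime := by
  unfold primeB
  rw [List.all_eq_true]
  constructor
  · intro h
    rw [Nat.prime_def_le_sqrt]
    refine ⟨h2, fun m hm hms hdvd => ?_⟩
    have h3 : m * m ≤ n := (Nat.le_sqrt.1 hms)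
    have h4 : m < 450 := by nlinarith
    have h5 := h (m - 2) (List.mem_range.2 (by omega))
    have e : m - 2 + 2 = m := by omega
    rw [e, Bool.or_eq_true] at h5
    rcases h5 with h5 | h5
    · have h8 := Nat.le_of_ble_eq_true h5
      have h9 : m * 2 ≤ m * m := Nat.mul_le_mul_left m hm
      omega
    · have h6 : Nat.mod n m = 0 := Nat.mod_eq_zero_of_dvd hdvd
      rw [h6] at h5
      exact absurd h5 (by decide)
  · intro h i _
    rw [Bool.or_eq_true]
    by_cases hi : n ≤ i + 2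
    · exact Or.inl (Nat.ble_eq_true_of_le hi)
    · right
      cases h5 : Nat.beq (Nat.mod n (i + 2)) 0 with
      | false => rfl
      | true =>
        have h6 : n % (i + 2) = 0 := Nat.eq_of_beq_eq_true h5
        have h7 := (Nat.dvd_prime h).1 (Nat.dvd_of_mod_eq_zero h6)
        omega

end Pool.Agent.Q208.MD
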