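import Pool.Agent.Q208.MDCheck

/-!
Base blocks of size 19 for 1 primes.
-/

set_option autoImplicit false
set_option maxRecDepth 100000

namespace Pool.Agent.Q208.MD

/-- `(c, p, q, τ, L, E)`: `2 h = c`, the prime, an auxiliary modulus, the number of multipliers, the
base blocks, the classes of the differences -/
def tab19 : List (ℕ × ℕ × ℕ × ℕ × List (List ℕ) × List ℕ) := [
  (38, 144667, 3415, 423, [[1, 3451, 46707, 26819, 110156, 108147, 119104, 28957, 110377, 2816, 25327, 24609, 6130, 33248, 17917, 58758, 95391, 76916, 117838]], [54200, 57691, 8476, 87501, 64489, 99779, 64829, 47710, 6930])]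

theorem ok19 : (tab19.all fun e => primeB e.2.1 && Nat.blt 1 e.2.1 && Nat.blt e.2.1 202500 &&
    Nat.ble 19 e.2.1 && okF 19 e.1 e.2.1 e.2.2.1 e.2.2.2.1 e.2.2.2.2.1 e.2.2.2.2.2) = true := by
  decide +kernel

end Pool.Agent.Q208.MD
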