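import Pool.Agent.Q208.MDCheck

/-!
Base blocks of size 20 for 1 primes.
-/

set_option autoImplicit false
set_option maxRecDepth 100000

namespace Pool.Agent.Q208.MD

/-- `(c, p, q, τ, L, E)`: `2 h = c`, the prime, an auxiliary modulus, the number of multipliers, the
base blocks, the classes of the differences -/
def tab20 : List (ℕ × ℕ × ℕ × ℕ × List (List ℕ) × List ℕ) := [
  (38, 131861, 3401, 347, [[0, 1, 105290, 34247, 127585, 85275, 57399, 87358, 91626, 87058, 19405, 98116, 115456, 96650, 37686, 129589, 108835, 120667, 89219, 90870]], [1, 99937, 41689, 39546, 14862, 29303, 10807, 80251, 56045, 97732])]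

theorem ok20 : (tab20.all fun e => primeB e.2.1 && Nat.blt 1 e.2.1 && Nat.blt e.2.1 202500 &&
    Nat.ble 20 e.2.1 && okF 20 e.1 e.2.1 e.2.2.1 e.2.2.2.1 e.2.2.2.2.1 e.2.2.2.2.2) = true := by
  decide +kernel

end Pool.Agent.Q208.MD
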