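import Pool.Agent.Q208.Tab10
import Pool.Agent.Q208.Tab11
import Pool.Agent.Q208.Tab12
import Pool.Agent.Q208.Tab13
import Pool.Agent.Q208.Tab14
import Pool.Agent.Q208.Tab15
import Pool.Agent.Q208.Tab16
import Pool.Agent.Q208.Tab19
import Pool.Agent.Q208.Tab20

/-!
Seeds: primes `p` with a Steiner system `S(p,q,2)` whose multiples of orders are orders.
-/

set_option autoImplicit false

namespace Pool.Agent.Q208.MD

open Finset

/-- a Steiner system `S(n,q,2)` exists -/
def Steiner (n q : ℕ) : Prop :=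
  ∃ B : Finset (Finset (Fin n)), (∀ b ∈ B, b.card = q) ∧
    ∀ T : Finset (Fin n), T.card = 2 → ∃! b, b ∈ B ∧ T ⊆ b

theorem steiner_iff {n q : ℕ} : Steiner n q ↔ Ex q (Fin n) := by
  classical
  constructor
  · rintro ⟨B, h1, h2⟩
    refine ⟨{b | b ∈ B}, h1, fun a b hab => ?_⟩
    obtain ⟨c, ⟨hc, hT⟩, hu⟩ := h2 {a, b} (card_pair hab)
    refine ⟨c, ⟨hc, hT (by simp), hT (by simp)⟩, ?_⟩
    rintro d ⟨hd, ha, hb⟩
    refine hu d ⟨hd, ?_⟩
    intro x hx
    rcases mem_insert.1 hx with rfl | hx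
    · exact ha
    · rw [mem_singleton.1 hx]
      exact hb
  · rintro ⟨𝓑, h1, h2⟩
    refine ⟨univ.filter (fun b => b ∈ 𝓑), fun b hb => h1 b (mem_filter.1 hb).2, ?_⟩
    intro T hT
    obtain ⟨a, b, hab, rfl⟩ := card_eq_two.1 hT
    obtain ⟨c, ⟨hc, ha, hb⟩, hu⟩ := h2 a b hab
    have hsub : ∀ d : Finset (Fin n), ({a, b} : Finset (Fin n)) ⊆ d ↔ a ∈ d ∧ b ∈ d := by
      intro d
      rw [insert_subset_iff, singleton_subset_iff]
    refine ⟨c, ⟨mem_filter.2 ⟨mem_univ _, hc⟩, (hsub c).2 ⟨ha, hb⟩⟩, ?_⟩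
    rintro d ⟨hd, hd'⟩
    obtain ⟨ha', hb'⟩ := (hsub d).1 hd'
    exact hu d ⟨(mem_filter.1 hd).2, ha', hb'⟩

/-- `p` is the order of a system, and so is `u p` for every order `u`. -/
def Seed (q p : ℕ) : Prop := Steiner p q ∧ ∀ u : ℕ, Steiner u q → Steiner (u * p) q

theorem Seed.of_ex {q p : ℕ} (hp : p.Prime) (hq : q ≤ p) (h : Ex q (ZMod p)) : Seed q p := by
  haveI : Fact p.Prime := ⟨hp⟩
  have e : ZMod p ≃ Fin p := Fintype.equivFinOfCardEq (ZMod.card p)
  refine ⟨steiner_iff.2 (h.congr e), fun u hu => ?_⟩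
  rw [steiner_iff] at hu ⊢
  have h1 := hu.prod hq h
  refine h1.congr (Fintype.equivFinOfCardEq ?_)
  rw [Fintype.card_prod, Fintype.card_fin, ZMod.card]

/-- the seeds of a table -/
theorem seeds {k : ℕ} {tab : List (ℕ × ℕ × ℕ × ℕ × List (List ℕ) × List ℕ)}
    (h : (tab.all fun e => primeB e.2.1 && Nat.blt 1 e.2.1 && Nat.blt e.2.1 202500 &&
      Nat.ble k e.2.1 && okF k e.1 e.2.1 e.2.2.1 e.2.2.2.1 e.2.2.2.2.1 e.2.2.2.2.2) = true)
    {p : ℕ} (hp : p ∈ tab.map (fun e => e.2.1)) : Seed k p := by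
  obtain ⟨e, he, rfl⟩ := List.mem_map.1 hp
  have h1 := List.all_eq_true.1 h e he
  simp only [Bool.and_eq_true] at h1
  obtain ⟨⟨⟨⟨h2, h3⟩, h4⟩, h5⟩, h6⟩ := h1
  have h3' : 1 < e.2.1 := by simpa using h3
  have h4' : e.2.1 < 202500 := by simpa using h4
  have hpr := (primeB_iff (by omega) h4').1 h2
  exact Seed.of_ex hpr (Nat.le_of_ble_eq_true h5) (okF_spec hpr h6)

/-- all primes of a progression in a range are in the table -/
theorem cover {a lo N : ℕ} {T : List ℕ} (ha : 0 < a)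
    (h : (List.range N).all (fun i => Nat.ble (a * i + 1) lo || !(primeB (a * i + 1)) ||
      memB (a * i + 1) T) = true) (hN : a * N < 202500) {p : ℕ} (hp : p.Prime) (h1 : p % a = 1)
    (hlo : lo < p) (hhi : p ≤ a * N) : p ∈ T := by
  have e : p = a * (p / a) + 1 := by
    have := Nat.div_add_mod p a
    omega
  have hi : p / a < N := by
    by_contra hcon
    push Not at hcon
    have := Nat.mul_le_mul_left a hcon
    omega
  have h2 := List.all_eq_true.1 h _ (List.mem_range.2 hi)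
  rw [← e, Bool.or_eq_true, Bool.or_eq_true] at h2
  rcases h2 with (h2 | h2) | h2
  · have := Nat.le_of_ble_eq_true h2
    omega
  · rw [(primeB_iff hp.two_le (by omega)).2 hp] at h2
    exact absurd h2 (by simp)
  · exact memB_iff.1 h2

theorem cover10 {p : ℕ} (hp : p.Prime) (h1 : p % 90 = 1) (hlo : 5000 < p) (hhi : p < 50000) :
    Seed 10 p :=
  seeds ok10 (cover (a := 90) (lo := 5000) (N := 556) (by norm_num) (by decide +kernel)
    (by norm_num) hp h1 hlo (by omega))

theorem cover12 {p : ℕ} (hp : p.Prime) (h1 : p % 132 = 1) (hlo : 4700 < p) (hhi : p < 50000) :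
    Seed 12 p :=
  seeds ok12 (cover (a := 132) (lo := 4700) (N := 379) (by norm_num) (by decide +kernel)
    (by norm_num) hp h1 hlo (by omega))

theorem cover13 {p : ℕ} (hp : p.Prime) (h1 : p % 156 = 1) (hlo : 20000 < p) (hhi : p < 50000)
    (hne : p ≠ 28393) : Seed 13 p := by
  have h2 : p ∈ 28393 :: tab13.map (fun e => e.2.1) :=
    cover (a := 156) (lo := 20000) (N := 321) (by norm_num) (by decide +kernel)
      (by norm_num) hp h1 hlo (by omega)
  rcases List.mem_cons.1 h2 with h | h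
  · exact absurd h hne
  · exact seeds ok13 h

/-- products of seeds -/
theorem steiner_of_seeds {q : ℕ} : ∀ n : ℕ, 1 < n → (∀ p : ℕ, p.Prime → p ∣ n → Seed q p) →
    Steiner n q := by
  intro n
  induction n using Nat.strong_induction_on with
  | _ n ih =>
    intro hn h
    obtain ⟨p, hp, hpn⟩ := Nat.exists_prime_and_dvd (show n ≠ 1 by omega)
    obtain ⟨u, rfl⟩ := hpn
    rcases Nat.lt_or_ge 1 u with hu | hu
    · rw [Nat.mul_comm]
      refine (h p hp ⟨u, rfl⟩).2 u (ih u ?_ hu fun r hr hru => h r hr (hru.mul_left p))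
      have := hp.two_le
      nlinarith
    · obtain rfl : u = 1 := by
        rcases Nat.eq_zero_or_pos u with h0 | h0
        · subst h0; omega
        · omega
      rw [Nat.mul_one]
      exact (h p hp (Dvd.intro _ rfl)).1

end Pool.Agent.Q208.MD
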