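import Pool.Agent.Q208.RDBase

/-!
Steiner systems `S(q p,q,2)` from relative difference families over `ZMod q × ZMod p` with a group of
multipliers, and products with systems on rings that contain `q` elements with invertible differences.
-/

set_option autoImplicit false

namespace Pool.Agent.Q208.RD

open Finset Pool.Agent.Q208.MD

/-- the product theorem for a ring with `k` elements whose differences are units -/
theorem prod {k : ℕ} {R : Type} [CommRing R] (e : Fin k → R)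
    (he : ∀ i j, i ≠ j → IsUnit (e i - e j)) {X : Type} (h : Ex k X) (hZ : Ex k R) :
    Ex k (X × R) := by
  classical
  obtain ⟨𝓑, h1, h2⟩ := h
  obtain ⟨𝓒, h3, h4⟩ := hZ
  have hc : ∀ B : Finset X, ∃ c : X → R, B ∈ 𝓑 → ∀ x ∈ B, ∀ y ∈ B, x ≠ y → IsUnit (c x - c y) := by
    intro B
    by_cases hB : B ∈ 𝓑
    · have h5 : Fintype.card B = k := by
        rw [Fintype.card_coe, h1 B hB]
      let φ : B ≃ Fin k := Fintype.equivFinOfCardEq h5
      refine ⟨fun x => if hx : x ∈ B then e (φ ⟨x, hx⟩) else 0, fun _ x hx y hy hxy => ?_⟩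
      simp only [hx, hy, dif_pos]
      exact he _ _ fun h => hxy (congrArg Subtype.val (φ.injective h))
    · exact ⟨fun _ => 0, fun h => absurd h hB⟩
  choose c hc using hc
  let blk : Finset X → R → R → Finset (X × R) := fun B a b =>
    B.image (fun x => (x, a + c B x * b))
  let fib : X → Finset R → Finset (X × R) := fun x C => C.image (fun z => (x, z))
  have hblk : ∀ B a b x z, (x, z) ∈ blk B a b ↔ x ∈ B ∧ z = a + c B x * b := by
    intro B a b x z
    simp only [blk, mem_image, Prod.mk.injEq]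
    constructor
    · rintro ⟨x', hx', rfl, rfl⟩
      exact ⟨hx', rfl⟩
    · rintro ⟨hx, rfl⟩
      exact ⟨x, hx, rfl, rfl⟩
  have hfib : ∀ x' C x z, (x, z) ∈ fib x' C ↔ x = x' ∧ z ∈ C := by
    intro x' C x z
    simp only [fib, mem_image, Prod.mk.injEq]
    constructor
    · rintro ⟨z', hz', rfl, rfl⟩
      exact ⟨rfl, hz'⟩
    · rintro ⟨rfl, hz⟩
      exact ⟨z, hz, rfl, rfl⟩
  refine ⟨{D | (∃ B ∈ 𝓑, ∃ a b, D = blk B a b) ∨ ∃ x, ∃ C ∈ 𝓒, D = fib x C}, ?_, ?_⟩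
  · rintro D (⟨B, hB, a, b, rfl⟩ | ⟨x, C, hC, rfl⟩)
    · rw [← h1 B hB]
      exact card_image_of_injective _ fun x y h => (Prod.ext_iff.1 h).1
    · rw [← h3 C hC]
      exact card_image_of_injective _ fun x y h => (Prod.ext_iff.1 h).2
  · rintro ⟨x, z⟩ ⟨x', z'⟩ hne
    by_cases hxx : x = x'
    · subst hxx
      have hz : z ≠ z' := fun h => hne (by rw [h])
      obtain ⟨C, ⟨hC, hz1, hz2⟩, hu⟩ := h4 z z' hz
      refine ⟨fib x C, ⟨Or.inr ⟨x, C, hC, rfl⟩, (hfib _ _ _ _).2 ⟨rfl, hz1⟩,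
        (hfib _ _ _ _).2 ⟨rfl, hz2⟩⟩, ?_⟩
      rintro D ⟨⟨B, hB, a, b, rfl⟩ | ⟨x1, C', hC', rfl⟩, hD1, hD2⟩
      · rw [hblk] at hD1 hD2
        exact absurd (hD1.2.trans hD2.2.symm) hz
      · rw [hfib] at hD1 hD2
        obtain ⟨rfl, hD1⟩ := hD1
        rw [hu C' ⟨hC', hD1, hD2.2⟩]
    · obtain ⟨B, ⟨hB, hx, hx'⟩, hu⟩ := h2 x x' hxx
      obtain ⟨v, hv⟩ := hc B hB x hx x' hx' hxx
      have hv1 : (c B x - c B x') * ↑v⁻¹ = 1 := by rw [← hv, Units.mul_inv]
      refine ⟨blk B (z - c B x * ((z - z') * ↑v⁻¹)) ((z - z') * ↑v⁻¹),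
        ⟨Or.inl ⟨B, hB, _, _, rfl⟩, (hblk _ _ _ _ _).2 ⟨hx, by ring⟩,
          (hblk _ _ _ _ _).2 ⟨hx', by linear_combination (z - z') * hv1⟩⟩, ?_⟩
      rintro D ⟨⟨B', hB', a, b, rfl⟩ | ⟨x1, C', hC', rfl⟩, hD1, hD2⟩
      · rw [hblk] at hD1 hD2
        have hBB : B' = B := hu B' ⟨hB', hD1.1, hD2.1⟩
        subst hBB
        have e1 : b = (z - z') * ↑v⁻¹ := by
          have h6 : z - z' = (c B' x - c B' x') * b := by
            rw [hD1.2, hD2.2]
            ring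
          rw [h6]
          linear_combination (-b) * hv1
        have e2 : a = z - c B' x * ((z - z') * ↑v⁻¹) := by
          rw [← e1, hD1.2]
          ring
        rw [← e1] at e2 ⊢
        rw [← e2]
      · rw [hfib] at hD1 hD2
        exact absurd (hD1.1.trans hD2.1.symm) hxx

/-- **Relative difference families with multipliers.** -/
theorem core {q p s τ : ℕ} [hp : Fact p.Prime] [hq : Fact q.Prime]
    (B : Fin s → Finset (ZMod q × ZMod p)) (hB : ∀ j, (B j).card = q)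
    (hcount : s * (q * q - q) * τ = q * (p - 1)) (hdiv : τ ∣ p - 1)
    (hne : ∀ j, ∀ x ∈ B j, ∀ y ∈ B j, x ≠ y → x.2 ≠ y.2)
    (hinj : ∀ j, ∀ x ∈ B j, ∀ y ∈ B j, x ≠ y → ∀ j', ∀ x' ∈ B j', ∀ y' ∈ B j', x' ≠ y' →
      x.1 - y.1 = x'.1 - y'.1 → (x.2 - y.2) ^ τ = (x'.2 - y'.2) ^ τ → j = j' ∧ x = x' ∧ y = y') :
    Ex q (ZMod q × ZMod p) := by
  classical
  obtain ⟨g, hg⟩ := IsCyclic.exists_generator (α := (ZMod p)ˣ)
  have hgo : orderOf g = p - 1 := by
    rw [orderOf_eq_card_of_forall_mem_zpowers hg, Nat.card_eq_fintype_card, ZMod.card_units_eq_totient,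
      Nat.totient_prime hp.out]
  have hp1 : 0 < p - 1 := by have := hp.out.two_le; omega
  obtain ⟨n, hn⟩ := hdiv
  have hn0 : 0 < n := by
    rcases Nat.eq_zero_or_pos n with h | h
    · subst h; omega
    · exact h
  set γ : (ZMod p)ˣ := g ^ n with hγ
  have hγo : orderOf γ = τ := by
    rw [hγ, orderOf_pow_of_dvd (by positivity), hgo, hn]
    · rw [Nat.mul_comm]
      exact Nat.mul_div_cancel_left _ hn0
    · rw [hgo, hn]
      exact ⟨τ, by ring⟩
  let T : Finset (ZMod p)ˣ := (range τ).image (fun i => γ ^ i)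
  have hTcard : T.card = τ := by
    rw [card_image_of_injOn, card_range]
    intro i hi i' hi' h
    rw [coe_range, Set.mem_Iio] at hi hi'
    exact pow_injOn_Iio_orderOf (x := γ) (by rw [hγo]; exact hi) (by rw [hγo]; exact hi') h
  have hTm : ∀ t ∈ T, (t : (ZMod p)ˣ) ^ τ = 1 := by
    intro t ht
    obtain ⟨i, -, rfl⟩ := mem_image.1 ht
    rw [← pow_mul, mul_comm i, pow_mul, ← hγo, pow_orderOf_eq_one, one_pow]
  let P : Finset ((ZMod p)ˣ × (Σ _ : Fin s, (ZMod q × ZMod p) × (ZMod q × ZMod p))) :=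
    T ×ˢ (univ.sigma fun j => (B j).offDiag)
  let f : (ZMod p)ˣ × (Σ _ : Fin s, (ZMod q × ZMod p) × (ZMod q × ZMod p)) → ZMod q × ZMod p :=
    fun r => (r.2.2.1.1 - r.2.2.2.1, (r.1 : ZMod p) * (r.2.2.1.2 - r.2.2.2.2))
  have hPm : ∀ r, r ∈ P ↔ r.1 ∈ T ∧ r.2.2.1 ∈ B r.2.1 ∧ r.2.2.2 ∈ B r.2.1 ∧ r.2.2.1 ≠ r.2.2.2 := by
    intro r
    simp only [P, mem_product, mem_sigma, mem_univ, true_and, mem_offDiag]
  have hf0 : ∀ r ∈ P, (f r).2 ≠ 0 := by
    intro r hr
    rw [hPm] at hr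
    exact mul_ne_zero (Units.ne_zero _) (sub_ne_zero.2 (hne _ _ hr.2.1 _ hr.2.2.1 hr.2.2.2))
  have hfinj : ∀ r ∈ P, ∀ r' ∈ P, f r = f r' → r = r' := by
    rintro ⟨t, j, x, y⟩ hr ⟨t', j', x', y'⟩ hr' h
    rw [hPm] at hr hr'
    simp only at hr hr'
    obtain ⟨ht, hx, hy, hxy⟩ := hr
    obtain ⟨ht', hx', hy', hxy'⟩ := hr'
    obtain ⟨h0, h1⟩ := Prod.ext_iff.1 h
    simp only [f] at h0 h1
    have e1 : (t : ZMod p) ^ τ = 1 := by
      rw [← Units.val_pow_eq_pow_val, hTm t ht, Units.val_one]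
    have e2 : (t' : ZMod p) ^ τ = 1 := by
      rw [← Units.val_pow_eq_pow_val, hTm t' ht', Units.val_one]
    have h2 : (x.2 - y.2) ^ τ = (x'.2 - y'.2) ^ τ := by
      have := congrArg (fun z => z ^ τ) h1
      simp only [mul_pow, e1, e2, one_mul] at this
      exact this
    obtain ⟨rfl, rfl, rfl⟩ := hinj j x hx y hy hxy j' x' hx' y' hy' hxy' h0 h2
    have h3 : t = t' :=
      Units.ext (mul_right_cancel₀ (sub_ne_zero.2 (hne _ _ hx _ hy hxy)) h1)
    rw [h3]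
  have hPcard : P.card = q * (p - 1) := by
    rw [card_product, hTcard, card_sigma]
    have : ∀ j ∈ (univ : Finset (Fin s)), (B j).offDiag.card = q * q - q := by
      intro j _
      rw [offDiag_card, hB]
    rw [sum_congr rfl this, sum_const, card_univ, Fintype.card_fin, smul_eq_mul, ← hcount]
    ring
  have himg : P.image f = (univ : Finset (ZMod q)) ×ˢ (univ.erase (0 : ZMod p)) := by
    refine eq_of_subset_of_card_le ?_ ?_
    · intro d hd
      obtain ⟨r, hr, rfl⟩ := mem_image.1 hd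
      exact mem_product.2 ⟨mem_univ _, mem_erase.2 ⟨hf0 r hr, mem_univ _⟩⟩
    · rw [card_image_of_injOn fun r hr r' hr' h => hfinj r (mem_coe.1 hr) r' (mem_coe.1 hr') h,
        hPcard, card_product, card_erase_of_mem (mem_univ _), card_univ, card_univ, ZMod.card,
        ZMod.card]
  let blk : (ZMod p)ˣ → Fin s → ZMod q × ZMod p → Finset (ZMod q × ZMod p) := fun t j u =>
    (B j).image (fun x => (x.1 + u.1, (t : ZMod p) * x.2 + u.2))
  let fib : ZMod p → Finset (ZMod q × ZMod p) := fun z => (univ : Finset (ZMod q)) ×ˢ {z}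
  have hblk : ∀ t j u z, z ∈ blk t j u ↔ ∃ x ∈ B j, (x.1 + u.1, (t : ZMod p) * x.2 + u.2) = z := by
    intro t j u z
    exact mem_image
  have hfib : ∀ c z, z ∈ fib c ↔ z.2 = c := by
    intro c z
    simp only [fib, mem_product, mem_univ, true_and, mem_singleton]
  refine ⟨{D | (∃ t ∈ T, ∃ j u, D = blk t j u) ∨ ∃ c, D = fib c}, ?_, ?_⟩
  · rintro D (⟨t, _, j, u, rfl⟩ | ⟨c, rfl⟩)
    · refine (card_image_of_injective _ fun x y h => ?_).trans (hB j)
      obtain ⟨h1, h2⟩ := Prod.ext_iff.1 h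
      exact Prod.ext (add_right_cancel h1)
        (mul_left_cancel₀ (Units.ne_zero t) (add_right_cancel h2))
    · simp only [fib, card_product, card_univ, ZMod.card, card_singleton, mul_one]
  · intro z z' hzz
    by_cases h2 : z.2 = z'.2
    · refine ⟨fib z.2, ⟨Or.inr ⟨z.2, rfl⟩, (hfib _ _).2 rfl, (hfib _ _).2 h2.symm⟩, ?_⟩
      rintro D ⟨⟨t, ht, j, u, rfl⟩ | ⟨c, rfl⟩, hz, hz'⟩
      · obtain ⟨x, hx, rfl⟩ := (hblk _ _ _ _).1 hz
        obtain ⟨y, hy, rfl⟩ := (hblk _ _ _ _).1 hz'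
        have hxy : x ≠ y := fun h => hzz (by rw [h])
        exact absurd (mul_left_cancel₀ (Units.ne_zero t) (add_right_cancel h2)) (hne j x hx y hy hxy)
      · rw [(hfib _ _).1 hz]
    · have hd : z - z' ∈ P.image f := by
        rw [himg]
        exact mem_product.2 ⟨mem_univ _, mem_erase.2 ⟨sub_ne_zero.2 h2, mem_univ _⟩⟩
      obtain ⟨⟨t, j, x, y⟩, hr, hrf⟩ := mem_image.1 hd
      have hr' := (hPm _).1 hr
      simp only at hr'
      obtain ⟨ht, hx, hy, hxy⟩ := hr'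
      obtain ⟨h1, h3⟩ := Prod.ext_iff.1 hrf
      simp only [f, Prod.fst_sub, Prod.snd_sub] at h1 h3
      refine ⟨blk t j (z.1 - x.1, z.2 - t * x.2), ⟨Or.inl ⟨t, ht, j, _, rfl⟩,
        (hblk _ _ _ _).2 ⟨x, hx, Prod.ext (by simp) (by simp)⟩,
        (hblk _ _ _ _).2 ⟨y, hy, Prod.ext ?_ ?_⟩⟩, ?_⟩
      · show y.1 + (z.1 - x.1) = z'.1
        linear_combination -h1
      · show (t : ZMod p) * y.2 + (z.2 - t * x.2) = z'.2
        linear_combination -h3
      rintro D ⟨⟨t', ht', j', u, rfl⟩ | ⟨c, rfl⟩, hz, hz'⟩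
      · obtain ⟨x', hx', rfl⟩ := (hblk _ _ _ _).1 hz
        obtain ⟨y', hy', rfl⟩ := (hblk _ _ _ _).1 hz'
        have hxy' : x' ≠ y' := fun h => hzz (by rw [h])
        have h5 : f (t, ⟨j, x, y⟩) = f (t', ⟨j', x', y'⟩) := by
          refine Prod.ext ?_ ?_
          · show x.1 - y.1 = x'.1 - y'.1
            rw [h1]
            ring
          · show (t : ZMod p) * (x.2 - y.2) = t' * (x'.2 - y'.2)
            rw [h3]
            ring
        have h6 := hfinj _ hr _ ((hPm _).2 ⟨ht', hx', hy', hxy'⟩) h5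
        obtain ⟨rfl, h7⟩ := Prod.ext_iff.1 h6
        simp only at h7
        obtain ⟨rfl, h8⟩ := Sigma.mk.inj_iff.1 h7
        obtain ⟨rfl, rfl⟩ := Prod.ext_iff.1 (eq_of_heq h8)
        simp
      · exact absurd (((hfib _ _).1 hz).trans ((hfib _ _).1 hz').symm) h2

end Pool.Agent.Q208.RD
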