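import Pool.Agent.Q208.MDCheck

/-!
Steiner systems and a fast primality check for numbers below `202500`.
-/

set_option autoImplicit false

namespace Pool.Agent.Q208.RD

open Finset Pool.Agent.Q208.MD

/-- a Steiner system `S(n,q,2)` exists -/
def Steiner (n q : ℕ) : Prop :=
  ∃ B : Finset (Finset (Fin n)), (∀ b ∈ B, b.card = q) ∧
    ∀ T : Finset (Fin n), T.card = 2 → ∃! b, b ∈ B ∧ T ⊆ b

theorem steiner_iff {n q : ℕ} : Steiner n q ↔ Ex q (Fin n) := by
  classical
  constructor
  · rintro ⟨B, h1, h2⟩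
    refine ⟨{b | b ∈ B}, h1, fun a b hab => ?_⟩
    obtain ⟨c, ⟨hc, hT⟩, hu⟩ := h2 {a, b} (card_pair hab)
    refine ⟨c, ⟨hc, hT (by simp), hT (by simp)⟩, ?_⟩
    rintro d ⟨hd, ha, hb⟩
    refine hu d ⟨hd, ?_⟩
    intro x hx
    rcases mem_insert.1 hx with rfl | hx
    · exact ha
    · rw [mem_singleton.1 hx]
      exact hb
  · rintro ⟨𝓑, h1, h2⟩
    refine ⟨univ.filter (fun b => b ∈ 𝓑), fun b hb => h1 b (mem_filter.1 hb).2, ?_⟩
    intro T hT
    obtain ⟨a, b, hab, rfl⟩ := card_eq_two.1 hT
    obtain ⟨c, ⟨hc, ha, hb⟩, hu⟩ := h2 a b hab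
    have hsub : ∀ d : Finset (Fin n), ({a, b} : Finset (Fin n)) ⊆ d ↔ a ∈ d ∧ b ∈ d := by
      intro d
      rw [insert_subset_iff, singleton_subset_iff]
    refine ⟨c, ⟨mem_filter.2 ⟨mem_univ _, hc⟩, (hsub c).2 ⟨ha, hb⟩⟩, ?_⟩
    rintro d ⟨hd, hd'⟩
    obtain ⟨ha', hb'⟩ := (hsub d).1 hd'
    exact hu d ⟨(mem_filter.1 hd).2, ha', hb'⟩

/-- `p` is the order of a system, and so is `u p` for every order `u`. -/
def Seed (q p : ℕ) : Prop := Steiner p q ∧ ∀ u : ℕ, Steiner u q → Steiner (u * p) q

/-- the primes below `450` -/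
def smallPrimes : List ℕ :=
  [2, 3, 5, 7, 11, 13, 17, 19, 23, 29, 31, 37, 41, 43, 47, 53, 59, 61, 67, 71, 73, 79, 83, 89, 97,
    101, 103, 107, 109, 113, 127, 131, 137, 139, 149, 151, 157, 163, 167, 173, 179, 181, 191, 193,
    197, 199, 211, 223, 227, 229, 233, 239, 241, 251, 257, 263, 269, 271, 277, 281, 283, 293, 307,
    311, 313, 317, 331, 337, 347, 349, 353, 359, 367, 373, 379, 383, 389, 397, 401, 409, 419, 421,
    431, 433, 439, 443, 449]

/-- their product -/
def primorial450 : ℕ := 47952908052796135760256600170199578387740533448517890811411728517171138658867337095151452769077564443190074989606933241597341551376625294861617115261811011811910212652094403655944384810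

/-- primality of the numbers below `202500` -/
def primeG (n : ℕ) : Bool :=
  cond (Nat.ble n 449) (primeB n) (Nat.beq (Nat.gcd n primorial450) 1)

theorem primorial450_eq : smallPrimes.prod = primorial450 := by decide +kernel

theorem gcd_ne_one {m : ℕ} (h1 : 2 ≤ m) (h2 : m < 450) : Nat.gcd m primorial450 ≠ 1 := by
  have h : ((List.range 448).all fun i => !(Nat.beq (Nat.gcd (i + 2) primorial450) 1)) = true := by
    decide +kernel
  have h3 := List.all_eq_true.1 h (m - 2) (List.mem_range.2 (by omega))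
  have e : m - 2 + 2 = m := by omega
  rw [e] at h3
  intro h4
  rw [h4] at h3
  exact absurd h3 (by decide)

theorem primeG_iff {n : ℕ} (h2 : 2 ≤ n) (hn : n < 202500) : primeG n = true ↔ n.Prime := by
  unfold primeG
  cases h : Nat.ble n 449 with
  | true =>
    rw [cond_true]
    exact primeB_iff h2 hn
  | false =>
    rw [cond_false]
    have h449 : ¬ n ≤ 449 := fun hc => by
      rw [Nat.ble_eq_true_of_le hc] at h
      exact absurd h (by simp)
    rw [Nat.beq_eq]
    constructor
    · intro h1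
      rw [Nat.prime_def_le_sqrt]
      refine ⟨h2, fun m hm hms hdvd => ?_⟩
      have h3 : m * m ≤ n := Nat.le_sqrt.1 hms
      have h4 : m < 450 := by nlinarith
      refine gcd_ne_one hm h4 ?_
      have h5 : Nat.gcd m primorial450 ∣ Nat.gcd n primorial450 :=
        Nat.gcd_dvd_gcd_of_dvd_left _ hdvd
      rw [h1] at h5
      exact Nat.dvd_one.1 h5
    · intro h1
      by_contra hne
      obtain ⟨r, hr, hrd⟩ := Nat.exists_prime_and_dvd hne
      have hrn : r ∣ n := hrd.trans (Nat.gcd_dvd_left _ _)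
      have hrP : r ∣ smallPrimes.prod := by
        rw [primorial450_eq]
        exact hrd.trans (Nat.gcd_dvd_right _ _)
      obtain ⟨s, hs, hrs⟩ := (Nat.Prime.prime hr).dvd_prod_iff.1 hrP
      have hs2 : s < 450 ∧ 0 < s := by
        have h7 : (smallPrimes.all fun s => Nat.blt s 450 && Nat.blt 0 s) = true := by
          decide +kernel
        have := List.all_eq_true.1 h7 s hs
        simpa using this
      have h6 : r ≤ s := Nat.le_of_dvd hs2.2 hrs
      rcases (Nat.dvd_prime h1).1 hrn with h8 | h8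
      · exact hr.one_lt.ne' h8
      · omega

end Pool.Agent.Q208.RD
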