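import Pool.Agent.Q208.RD

/-!
The check of relative difference families with natural numbers: the point `(a, b)` of
`ZMod q × ZMod p` has the code `a p + b`.
-/

set_option autoImplicit false

namespace Pool.Agent.Q208.RD

open Finset Pool.Agent.Q208.MD

/-- the values of a function on the pairs of different entries -/
def prs (F : ℕ → ℕ → ℕ) (B : List ℕ) : List ℕ :=
  B.flatMap fun x => B.flatMap fun y => cond (Nat.beq x y) [] [F x y]

theorem beq_ne {x y : ℕ} (h : x ≠ y) : Nat.beq x y = false := by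
  cases h' : Nat.beq x y with
  | true => exact absurd (Nat.eq_of_beq_eq_true h') h
  | false => rfl

theorem mem_prs {F : ℕ → ℕ → ℕ} {B : List ℕ} {x y : ℕ} (hx : x ∈ B) (hy : y ∈ B) (hxy : x ≠ y) :
    F x y ∈ prs F B := by
  unfold prs
  rw [List.mem_flatMap]
  refine ⟨x, hx, ?_⟩
  rw [List.mem_flatMap]
  refine ⟨y, hy, ?_⟩
  rw [beq_ne hxy]
  simp

theorem prs_inj {F : ℕ → ℕ → ℕ} {B : List ℕ} (hnd : (prs F B).Nodup) {x y x' y' : ℕ}
    (hx : x ∈ B) (hy : y ∈ B) (hxy : x ≠ y) (hx' : x' ∈ B) (hy' : y' ∈ B) (hxy' : x' ≠ y')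
    (h : F x y = F x' y') : x = x' ∧ y = y' := by
  unfold prs at hnd
  rw [List.nodup_flatMap] at hnd
  obtain ⟨h1, h2⟩ := hnd
  have hin : ∀ x y : ℕ, y ∈ B → x ≠ y → F x y ∈
      B.flatMap fun y => cond (Nat.beq x y) [] [F x y] := by
    intro x y hy hxy
    rw [List.mem_flatMap]
    refine ⟨y, hy, ?_⟩
    rw [beq_ne hxy]
    simp
  have hxx : x = x' := by
    by_contra hne
    obtain ⟨i, hi, rfl⟩ := List.mem_iff_getElem.1 hx
    obtain ⟨j, hj, rfl⟩ := List.mem_iff_getElem.1 hx'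
    have hij : i ≠ j := fun h => hne (by subst h; rfl)
    rw [List.pairwise_iff_getElem] at h2
    rcases Nat.lt_or_gt_of_ne hij with hl | hl
    · have := h2 i j hi hj hl
      simp only [Function.onFun] at this
      exact this (hin _ _ hy hxy) (h ▸ hin _ _ hy' hxy')
    · have := h2 j i hj hi hl
      simp only [Function.onFun] at this
      exact this (hin _ _ hy' hxy') (h ▸ hin _ _ hy hxy)
  subst hxx
  refine ⟨rfl, ?_⟩
  have h3 := h1 x hx
  rw [List.nodup_flatMap] at h3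
  by_contra hne
  obtain ⟨i, hi, rfl⟩ := List.mem_iff_getElem.1 hy
  obtain ⟨j, hj, rfl⟩ := List.mem_iff_getElem.1 hy'
  have hij : i ≠ j := fun h => hne (by subst h; rfl)
  have h4 := h3.2
  rw [List.pairwise_iff_getElem] at h4
  rcases Nat.lt_or_gt_of_ne hij with hl | hl
  · have := h4 i j hi hj hl
    simp only [Function.onFun, beq_ne hxy, beq_ne hxy', cond_false] at this
    rw [h] at this
    exact this (List.mem_singleton.2 rfl) (List.mem_singleton.2 rfl)
  · have := h4 j i hj hi hl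
    simp only [Function.onFun, beq_ne hxy, beq_ne hxy', cond_false] at this
    rw [h] at this
    exact this (List.mem_singleton.2 rfl) (List.mem_singleton.2 rfl)

/-- the class of the difference of two points -/
def cl (q p τ x y : ℕ) : ℕ :=
  ((x / p + (q - y / p)) % q) * p + ((x % p + (p - y % p)) % p) ^ τ % p

/-- the check of a family -/
def okR (q p m τ : ℕ) (L : List (List ℕ)) : Bool :=
  L.all (fun B => Nat.beq B.length q && ndB (B.map fun x => x % p) &&
    B.all (fun x => Nat.blt x (q * p))) &&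
  Nat.beq (L.length * (q * q - q) * τ) (q * (p - 1)) && Nat.beq ((p - 1) % τ) 0 &&
  ndq m (L.flatMap (prs (cl q p τ))) 0

theorem cast_sub' {p x y : ℕ} (hy : y < p) :
    (((x + (p - y)) % p : ℕ) : ZMod p) = (x : ZMod p) - (y : ZMod p) := cast_dif hy

theorem okR_spec {q p m τ : ℕ} (hq : q.Prime) (hp : p.Prime) {L : List (List ℕ)}
    (h : okR q p m τ L = true) : Ex q (ZMod q × ZMod p) := by
  classical
  have : Fact p.Prime := ⟨hp⟩
  have : Fact q.Prime := ⟨hq⟩
  unfold okR at h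
  simp only [Bool.and_eq_true, List.all_eq_true, Nat.beq_eq, Nat.blt_eq] at h
  obtain ⟨⟨⟨hL, hcount⟩, hdiv⟩, hnd⟩ := h
  have hnd' := (ndq_spec hnd).1
  rw [List.nodup_flatMap] at hnd'
  obtain ⟨hn1, hn2⟩ := hnd'
  have hp0 : 0 < p := hp.pos
  have hLj : ∀ j : Fin L.length, L[j] ∈ L := fun j => List.getElem_mem _
  let c : ℕ → ZMod q × ZMod p := fun x => ((x / p : ℕ), (x % p : ℕ))
  have hdlt : ∀ B ∈ L, ∀ x ∈ B, x / p < q := by
    intro B hB x hx
    rw [Nat.div_lt_iff_lt_mul hp0]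
    exact (hL B hB).2 x hx
  have hmod : ∀ B ∈ L, ∀ x ∈ B, ∀ y ∈ B, x % p = y % p → x = y := by
    intro B hB x hx y hy hxy
    exact List.inj_on_of_nodup_map (ndB_nodup (hL B hB).1.2) hx hy hxy
  have hsnd : ∀ x y : ℕ, (c x).2 = (c y).2 → x % p = y % p := by
    intro x y h
    simp only [c] at h
    rw [ZMod.natCast_eq_natCast_iff', Nat.mod_mod, Nat.mod_mod] at h
    exact h
  let Bf : Fin L.length → Finset (ZMod q × ZMod p) := fun j => (L[j].map c).toFinset
  have hBf : ∀ j z, z ∈ Bf j ↔ ∃ x ∈ L[j], c x = z := by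
    intro j z
    simp only [Bf, List.mem_toFinset, List.mem_map]
  -- equal classes have equal codes
  have hcl : ∀ B ∈ L, ∀ B' ∈ L, ∀ x ∈ B, ∀ y ∈ B, ∀ x' ∈ B', ∀ y' ∈ B',
      (c x).1 - (c y).1 = (c x').1 - (c y').1 →
      ((c x).2 - (c y).2) ^ τ = ((c x').2 - (c y').2) ^ τ → cl q p τ x y = cl q p τ x' y' := by
    intro B hB B' hB' x hx y hy x' hx' y' hy' h1 h2
    have E1 : (x / p + (q - y / p)) % q = (x' / p + (q - y' / p)) % q := by
      have e1 : (((x / p + (q - y / p)) % q : ℕ) : ZMod q) =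
          (((x' / p + (q - y' / p)) % q : ℕ) : ZMod q) := by
        rw [cast_sub' (hdlt B hB y hy), cast_sub' (hdlt B' hB' y' hy')]
        exact h1
      rw [ZMod.natCast_eq_natCast_iff', Nat.mod_mod, Nat.mod_mod] at e1
      exact e1
    have E2 : ((x % p + (p - y % p)) % p) ^ τ % p = ((x' % p + (p - y' % p)) % p) ^ τ % p := by
      have e1 : ((((x % p + (p - y % p)) % p) ^ τ : ℕ) : ZMod p) =
          ((((x' % p + (p - y' % p)) % p) ^ τ : ℕ) : ZMod p) := by
        rw [Nat.cast_pow, Nat.cast_pow, cast_sub' (Nat.mod_lt y hp0), cast_sub' (Nat.mod_lt y' hp0)]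
        exact h2
      rw [ZMod.natCast_eq_natCast_iff'] at e1
      exact e1
    unfold cl
    rw [E1, E2]
  refine core (s := L.length) (τ := τ) Bf ?_ hcount (Nat.dvd_of_mod_eq_zero hdiv) ?_ ?_
  · intro j
    have h1 := (hL _ (hLj j)).1
    rw [List.toFinset_card_of_nodup, List.length_map]
    · exact h1.1
    · refine List.Nodup.map_on (fun x hx y hy hxy => ?_) (ndB_nodup h1.2).of_map
      exact hmod _ (hLj j) x hx y hy (hsnd x y (congrArg Prod.snd hxy))
  · intro j x hx y hy hxy h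
    obtain ⟨a, ha, rfl⟩ := (hBf _ _).1 hx
    obtain ⟨b, hb, rfl⟩ := (hBf _ _).1 hy
    exact hxy (by rw [hmod _ (hLj j) a ha b hb (hsnd a b h)])
  · intro j x hx y hy hxy j' x' hx' y' hy' hxy' h1 h2
    obtain ⟨a, ha, rfl⟩ := (hBf _ _).1 hx
    obtain ⟨b, hb, rfl⟩ := (hBf _ _).1 hy
    obtain ⟨a', ha', rfl⟩ := (hBf _ _).1 hx'
    obtain ⟨b', hb', rfl⟩ := (hBf _ _).1 hy'
    have hab : a ≠ b := fun h => hxy (by rw [h])
    have hab' : a' ≠ b' := fun h => hxy' (by rw [h])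
    have hd := hcl _ (hLj j) _ (hLj j') a ha b hb a' ha' b' hb' h1 h2
    have hjj : j = j' := by
      by_contra hne
      rw [List.pairwise_iff_getElem] at hn2
      have hm1 : cl q p τ a b ∈ prs (cl q p τ) L[j] := mem_prs ha hb hab
      have hm2 : cl q p τ a b ∈ prs (cl q p τ) L[j'] := hd ▸ mem_prs ha' hb' hab'
      rcases Nat.lt_or_gt_of_ne (fun h => hne (Fin.ext h) : (j : ℕ) ≠ j') with hl | hl
      · exact hn2 j j' j.2 j'.2 hl hm1 hm2
      · exact hn2 j' j j'.2 j.2 hl hm2 hm1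
    subst hjj
    obtain ⟨rfl, rfl⟩ := prs_inj (hn1 _ (hLj j)) ha hb hab ha' hb' hab' hd
    exact ⟨rfl, rfl, rfl⟩

/-- an order of a system which can be multiplied to all orders -/
theorem seed_of_ring {k n : ℕ} {R : Type} [CommRing R] (φ : R ≃ Fin n) (e : Fin k → R)
    (he : ∀ i j, i ≠ j → IsUnit (e i - e j)) (h : Ex k R) :
    Steiner n k ∧ ∀ u : ℕ, Steiner u k → Steiner (u * n) k := by
  refine ⟨steiner_iff.2 (h.congr φ), fun u hu => ?_⟩
  rw [steiner_iff] at hu ⊢
  exact (prod e he hu h).congr ((Equiv.prodCongr (Equiv.refl _) φ).trans finProdFinEquiv)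

/-- the orders `q p` -/
theorem seed_qp {q p : ℕ} (hq : q.Prime) (hp : p.Prime) (hqp : q ≤ p)
    (h : Ex q (ZMod q × ZMod p)) : Steiner (q * p) q ∧ ∀ u : ℕ, Steiner u q →
      Steiner (u * (q * p)) q := by
  have : Fact p.Prime := ⟨hp⟩
  have : Fact q.Prime := ⟨hq⟩
  have φ : ZMod q × ZMod p ≃ Fin (q * p) := Fintype.equivFinOfCardEq (by
    rw [Fintype.card_prod, ZMod.card, ZMod.card])
  refine seed_of_ring φ (fun i : Fin q => (((i : ℕ) : ZMod q), ((i : ℕ) : ZMod p))) ?_ h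
  intro i j hij
  have hne : (i : ℕ) ≠ j := fun h => hij (Fin.ext h)
  rw [Prod.isUnit_iff]
  refine ⟨IsUnit.mk0 _ (sub_ne_zero.2 fun h => hne ?_), IsUnit.mk0 _ (sub_ne_zero.2 fun h => hne ?_)⟩
  · simp only at h
    rwa [ZMod.natCast_eq_natCast_iff', Nat.mod_eq_of_lt i.2, Nat.mod_eq_of_lt j.2] at h
  · simp only at h
    rwa [ZMod.natCast_eq_natCast_iff', Nat.mod_eq_of_lt (i.2.trans_le hqp),
      Nat.mod_eq_of_lt (j.2.trans_le hqp)] at h

/-- the order `q` -/
theorem seed_q {q : ℕ} (hq : q.Prime) (u : ℕ) (hu : Steiner u q) : Steiner (u * q) q := by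
  have : Fact q.Prime := ⟨hq⟩
  have φ : ZMod q ≃ Fin q := Fintype.equivFinOfCardEq (ZMod.card q)
  refine (seed_of_ring φ (fun i : Fin q => ((i : ℕ) : ZMod q)) ?_ ?_).2 u hu
  · intro i j hij
    have hne : (i : ℕ) ≠ j := fun h => hij (Fin.ext h)
    refine IsUnit.mk0 _ (sub_ne_zero.2 fun h => hne ?_)
    rwa [ZMod.natCast_eq_natCast_iff', Nat.mod_eq_of_lt i.2, Nat.mod_eq_of_lt j.2] at h
  · refine ⟨{univ}, ?_, fun a b _ => ⟨univ, by simp, ?_⟩⟩
    · rintro B rfl
      rw [card_univ, ZMod.card]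
    · rintro B ⟨hB, -⟩
      exact hB

end Pool.Agent.Q208.RD
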