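import Pool.Agent.Q208.RDCheck

/-!
The same check with fewer reductions.
-/

set_option autoImplicit false

namespace Pool.Agent.Q208.RD

open Finset Pool.Agent.Q208.MD

/-- `cl` with the functions of natural numbers that the kernel evaluates -/
def clN (q p τ x y : ℕ) : ℕ :=
  Nat.add (Nat.mul (Nat.mod (Nat.add (Nat.div x p) (Nat.sub q (Nat.div y p))) q) p)
    (Nat.mod (Nat.pow (Nat.mod (Nat.add (Nat.mod x p) (Nat.sub p (Nat.mod y p))) p) τ) p)

theorem clN_eq : clN = cl := rfl

/-- the differences with the first entry `x`, then the check `K` -/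
def go2 (q p m τ x : ℕ) (K : ℕ → Bool) : List ℕ → ℕ → Bool
  | [], M => K M
  | y :: ys, M => cond (Nat.beq x y) (go2 q p m τ x K ys M)
    (cond (Nat.beq (Nat.land (Nat.shiftRight M (Nat.mod (clN q p τ x y) m)) 1) 1) false
     (go2 q p m τ x K ys (Nat.lor M (Nat.pow 2 (Nat.mod (clN q p τ x y) m)))))

/-- the differences of a block, then the check `K` -/
def go1 (q p m τ : ℕ) (B : List ℕ) (K : ℕ → Bool) : List ℕ → ℕ → Bool
  | [], M => K M
  | x :: xs, M => go2 q p m τ x (go1 q p m τ B K xs) B M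

/-- the differences of all blocks -/
def go0 (q p m τ : ℕ) : List (List ℕ) → ℕ → Bool
  | [], _ => true
  | B :: L, M => go1 q p m τ B (go0 q p m τ L) B M

theorem go2_eq {q p m τ x : ℕ} {K : ℕ → Bool} {rest : List ℕ} (hK : ∀ M, K M = ndq m rest M) :
    ∀ (ys : List ℕ) (M : ℕ), go2 q p m τ x K ys M =
      ndq m ((ys.flatMap fun y => cond (Nat.beq x y) [] [cl q p τ x y]) ++ rest) M
  | [], M => by
    unfold go2
    rw [hK M]
    simp
  | y :: ys, M => by
    unfold go2
    rw [List.flatMap_cons, go2_eq hK ys, go2_eq hK ys, clN_eq]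
    cases h : Nat.beq x y with
    | true => simp
    | false => simp [ndq]

theorem go1_eq {q p m τ : ℕ} {B : List ℕ} {K : ℕ → Bool} {rest : List ℕ}
    (hK : ∀ M, K M = ndq m rest M) : ∀ (xs : List ℕ) (M : ℕ), go1 q p m τ B K xs M =
      ndq m ((xs.flatMap fun x => B.flatMap fun y => cond (Nat.beq x y) [] [cl q p τ x y]) ++
        rest) M
  | [], M => by
    unfold go1
    rw [hK M]
    simp
  | x :: xs, M => by
    unfold go1
    rw [List.flatMap_cons, List.append_assoc, go2_eq (go1_eq hK xs)]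

theorem go0_eq {q p m τ : ℕ} : ∀ (L : List (List ℕ)) (M : ℕ), go0 q p m τ L M =
    ndq m (L.flatMap (prs (cl q p τ))) M
  | [], M => by
    unfold go0
    simp [ndq]
  | B :: L, M => by
    unfold go0
    rw [List.flatMap_cons, go1_eq (go0_eq L)]
    rfl

/-- the check of a family -/
def okRF (q p m τ : ℕ) (L : List (List ℕ)) : Bool :=
  L.all (fun B => Nat.beq B.length q && ndB (B.map fun x => x % p) &&
    B.all (fun x => Nat.blt x (q * p))) &&
  Nat.beq (L.length * (q * q - q) * τ) (q * (p - 1)) && Nat.beq ((p - 1) % τ) 0 &&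
  go0 q p m τ L 0

theorem okRF_eq {q p m τ : ℕ} {L : List (List ℕ)} (h : okRF q p m τ L = true) :
    okR q p m τ L = true := by
  unfold okRF at h
  rw [go0_eq] at h
  exact h

end Pool.Agent.Q208.RD
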