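import Pool.Agent.Q208.RDFast

/-!
Relative difference families over `ZMod 23 × ZMod p` for 2 primes.
-/

set_option autoImplicit false
set_option maxRecDepth 100000

namespace Pool.Agent.Q208.RD

open Pool.Agent.Q208.MD

/-- `(p, m, τ, L)`: the prime, an auxiliary modulus, the number of multipliers, the base blocks -/
def rt23 : List (ℕ × ℕ × ℕ × List (List ℕ)) := [
  (48731, 1512, 2215, [[0, 48732, 127729, 240875, 406025, 808598, 445232, 887017, 655943, 173726, 333597, 599433, 84545, 107436, 238168, 390067, 780753, 463262, 911289, 676742, 190001, 307343, 626032]]),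
  (58411, 1238, 2655, [[0, 58412, 163237, 271367, 510608, 950523, 579923, 1103601, 814897, 218959, 402561, 708601, 94473, 167347, 266691, 470933, 958995, 526540, 1067865, 767213, 217300, 385774, 742736]])]

theorem rok23 : (rt23.all fun e => primeG e.1 && Nat.blt 1 e.1 && Nat.blt e.1 202500 &&
    Nat.ble 23 e.1 && okRF 23 e.1 e.2.1 e.2.2.1 e.2.2.2) = true := by
  decide +kernel

end Pool.Agent.Q208.RD
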