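import Pool.Agent.Q208.RDFast

/-!
Relative difference families over `ZMod 29 × ZMod p` for 1 primes.
-/

set_option autoImplicit false
set_option maxRecDepth 100000

namespace Pool.Agent.Q208.RD

open Pool.Agent.Q208.MD

/-- `(p, m, τ, L)`: the prime, an auxiliary modulus, the number of multipliers, the base blocks -/
def rt29 : List (ℕ × ℕ × ℕ × List (List ℕ)) := [
  (119701, 2440, 4275, [[0, 119702, 576333, 2020494, 783591, 2975116, 1153633, 914917, 3420673, 3102575, 1632398, 2856934, 631542, 2467776, 2670452, 239401, 500976, 1929639, 772522, 2890233, 1120686, 880598, 3402284, 3002176, 1599529, 2769013, 685169, 2439965, 2716093]])]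

theorem rok29 : (rt29.all fun e => primeG e.1 && Nat.blt 1 e.1 && Nat.blt e.1 202500 &&
    Nat.ble 29 e.1 && okRF 29 e.1 e.2.1 e.2.2.1 e.2.2.2) = true := by
  decide +kernel

end Pool.Agent.Q208.RD
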