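import Pool.Agent.Q208.RT11
import Pool.Agent.Q208.RT13
import Pool.Agent.Q208.RT17
import Pool.Agent.Q208.RT19
import Pool.Agent.Q208.RT23
import Pool.Agent.Q208.RT29

/-!
The orders `q p` of the tables.
-/

set_option autoImplicit false

namespace Pool.Agent.Q208.RD

open Finset Pool.Agent.Q208.MD

/-- the seeds of a table -/
theorem rseeds {q : ℕ} (hq : q.Prime) {tab : List (ℕ × ℕ × ℕ × List (List ℕ))}
    (h : (tab.all fun e => primeG e.1 && Nat.blt 1 e.1 && Nat.blt e.1 202500 &&
      Nat.ble q e.1 && okRF q e.1 e.2.1 e.2.2.1 e.2.2.2) = true)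
    {p : ℕ} (hp : p ∈ tab.map (fun e => e.1)) : Seed q (q * p) := by
  obtain ⟨e, he, rfl⟩ := List.mem_map.1 hp
  have h1 := List.all_eq_true.1 h e he
  simp only [Bool.and_eq_true] at h1
  obtain ⟨⟨⟨⟨h2, h3⟩, h4⟩, h5⟩, h6⟩ := h1
  have h3' : 1 < e.1 := by simpa using h3
  have h4' : e.1 < 202500 := by simpa using h4
  have hpr := (primeG_iff (by omega) h4').1 h2
  exact seed_qp hq hpr (Nat.le_of_ble_eq_true h5) (okR_spec hq hpr (okRF_eq h6))

/-- all primes of some residue classes in a range are in the table -/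
theorem rcover {a lo N : ℕ} {R T : List ℕ} (ha : 0 < a)
    (h : R.all (fun r => (List.range N).all fun i => Nat.ble (a * i + r) lo ||
      !(primeG (a * i + r)) || memB (a * i + r) T) = true) (hN : a * N < 202500) {p : ℕ}
    (hp : p.Prime) (h1 : p % a ∈ R) (hlo : lo < p) (hhi : p < a * N) : p ∈ T := by
  have e : p = a * (p / a) + p % a := (Nat.div_add_mod p a).symm
  have hi : p / a < N := by
    rw [Nat.div_lt_iff_lt_mul ha, Nat.mul_comm]
    exact hhi
  have h2 := List.all_eq_true.1 (List.all_eq_true.1 h _ h1) _ (List.mem_range.2 hi)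
  rw [← e, Bool.or_eq_true, Bool.or_eq_true] at h2
  rcases h2 with (h2 | h2) | h2
  · have := Nat.le_of_ble_eq_true h2
    omega
  · rw [(primeG_iff hp.two_le (by omega)).2 hp] at h2
    exact absurd h2 (by simp)
  · exact memB_iff.1 h2

theorem rcover11 {p : ℕ} (hp : p.Prime)
    (h1 : p % 100 = 11 ∨ p % 100 = 31 ∨ p % 100 = 71 ∨ p % 100 = 91) (hlo : 3500 < p)
    (hhi : p < 20000) (hne : p ≠ 17491) : Seed 11 (11 * p) := by
  have h2 : p ∈ 17491 :: rt11.map (fun e => e.1) :=
    rcover (a := 100) (lo := 3500) (N := 200) (R := [11, 31, 71, 91]) (by norm_num)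
      (by decide +kernel) (by norm_num) hp (by simpa using h1) hlo (by omega)
  rcases List.mem_cons.1 h2 with h | h
  · exact absurd h hne
  · exact rseeds (by norm_num) rok11 h

theorem rcover13 {p : ℕ} (hp : p.Prime) (h1 : p % 72 = 13 ∨ p % 72 = 61) (hlo : 1300 < p)
    (hhi : p < 20000) : Seed 13 (13 * p) := by
  have h2 : p ∈ rt13.map (fun e => e.1) :=
    rcover (a := 72) (lo := 1300) (N := 278) (R := [13, 61]) (by norm_num)
      (by decide +kernel) (by norm_num) hp (by simpa using h1) hlo (by omega)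
  exact rseeds (by norm_num) rok13 h2

/-- products of seeds -/
theorem steiner_prod {q : ℕ} : ∀ L : List ℕ, L ≠ [] → (∀ n ∈ L, Seed q n) → Steiner L.prod q
  | [], h, _ => absurd rfl h
  | [n], _, h => by
    rw [List.prod_singleton]
    exact (h n (by simp)).1
  | n :: m :: L, _, h => by
    rw [List.prod_cons, Nat.mul_comm]
    exact (h n (by simp)).2 _ (steiner_prod (m :: L) (by simp) fun x hx => h x (by simp [hx]))

/-- the trivial seed -/
theorem seed_self {q : ℕ} (hq : q.Prime) : Seed q q := by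
  refine ⟨?_, fun u hu => seed_q hq u hu⟩
  have h1 : Steiner 1 q := ⟨∅, by simp, fun T hT => by
    have := card_le_univ T
    rw [hT, Fintype.card_fin] at this
    omega⟩
  simpa using seed_q hq 1 h1

end Pool.Agent.Q208.RD
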